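import Mathlib
import Pool.Agent.Shared.Subspace.RothAux

/-!
Definitions for the window theorem on `a x ^ n + b y ^ n = c z ^ n`.
-/

set_option autoImplicit false

namespace Pool.Agent.Lib.MP_4ffbf9_nt.SP

open MvPolynomial Pool.Agent.Subspace

abbrev R2 := MvPolynomial (Fin 2) ℤ

abbrev Q2 := MvPolynomial (Fin 2) ℚ

noncomputable abbrev toQ : R2 →+* Q2 := MvPolynomial.map (Int.castRingHom ℚ)

/-- `G` vanishes at `p` to order at least `μ`. -/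
def Van (p : Fin 2 → ℚ) (μ : ℕ) (G : Q2) : Prop :=
  ∀ ν : Fin 2 →₀ ℕ, ν 0 + ν 1 < μ → coeff ν (shift p G) = 0

theorem van_iff (p : Fin 2 → ℚ) (μ : ℕ) (G : Q2) :
    Van p μ G ↔ IdxGe (fun _ => (1 : ℝ)) μ (shift p G) := by
  refine forall_congr' fun ν => ?_
  rw [MvPolynomial.mem_support_iff, Finsupp.weight_eq_sum, Fin.sum_univ_two]
  simp only [nsmul_eq_mul, mul_one]
  rw [← Nat.cast_add, Nat.cast_le, ← not_le, not_imp_comm]

theorem Van.mono {p : Fin 2 → ℚ} {μ μ' : ℕ} {G : Q2} (h : Van p μ G) (hμ : μ' ≤ μ) :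
    Van p μ' G := fun ν hν => h ν (hν.trans_le hμ)

/-- The point `(y / z, x / z)`. -/
def pt (x y z : ℕ) : Fin 2 → ℚ := ![(y : ℚ) / z, (x : ℚ) / z]

/-- A solution with pairwise coprime roots of comparable size and coefficients at most `2 ^ n`. -/
structure Sol (n a b c x y z : ℕ) : Prop where
  eq : a * x ^ n + b * y ^ n = c * z ^ n
  ha : 0 < a
  hb : 0 < b
  hc : 0 < c
  hx : 0 < x
  hy : 0 < y
  hz : 0 < z
  a_le : a ≤ 2 ^ n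
  b_le : b ≤ 2 ^ n
  c_le : c ≤ 2 ^ n
  cxy : Nat.Coprime x y
  cxz : Nat.Coprime x z
  cyz : Nat.Coprime y z
  x_le : x ≤ 2 * z
  le_x : z ≤ 2 * x
  y_le : y ≤ 2 * z
  le_y : z ≤ 2 * y

/-- `x / z` is within `z ^ (-1 / J)` of `1`. -/
def Near (J x z : ℕ) : Prop := |(x : ℝ) / z - 1| ^ J * z ≤ 1

/-- The exponent of `u` (of `u + 1`) attached to `X 1 ^ i` (to `X 0 ^ i`). -/
def al (J n i : ℕ) : ℕ := 200 * J ^ 2 - 1 - i / n

/-- The data of the auxiliary polynomial `∑ l, u ^ l * P l`. -/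
structure Aux (J n : ℕ) (K : ℝ) (P : Fin (400 * J ^ 2 + 7) → R2)
    (cc : (Fin 2 →₀ ℕ) → Polynomial ℤ) : Prop where
  ne : ∃ ν, cc ν ≠ 0
  supp : ∀ ν, cc ν ≠ 0 → ∀ i, ν i < n * (200 * J ^ 2)
  deg : ∀ ν, (cc ν).natDegree ≤ 8
  size : ∀ ν e, |((cc ν).coeff e : ℝ)| ≤ K ^ n
  coe : ∀ ν l, coeff ν (P l) =
    (Polynomial.X ^ al J n (ν 1) * (Polynomial.X + 1) ^ al J n (ν 0) * cc ν).coeff l
  l1_le : ∀ l, l1 (P l) ≤ K ^ n
  van : ∀ l (ν : Fin 2 →₀ ℕ), ν 0 + ν 1 < 20 * J * n → coeff ν (shift (fun _ => 1) (P l)) = 0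

theorem Aux.degLe {J n : ℕ} {K : ℝ} {P : Fin (400 * J ^ 2 + 7) → R2}
    {cc : (Fin 2 →₀ ℕ) → Polynomial ℤ} (h : Aux J n K P cc) (l : Fin (400 * J ^ 2 + 7))
    (i : Fin 2) : DegLe i (n * (200 * J ^ 2)) (P l) := by
  intro ν hν
  refine (h.supp ν (fun h0 => ?_) i).le
  rw [MvPolynomial.mem_support_iff, h.coe, h0] at hν
  simp at hν

/-- The value of `u`. -/
def uu (n a c x z : ℕ) : ℚ := -((a : ℚ) * x ^ n) / ((c : ℚ) * z ^ n)

/-- The auxiliary polynomial at `u`. -/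
noncomputable def GG {r : ℕ} (P : Fin r → R2) (u : ℚ) : Q2 :=
  ∑ l : Fin r, C (u ^ (l : ℕ)) * toQ (P l)

end Pool.Agent.Lib.MP_4ffbf9_nt.SP
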