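import Mathlib
import Pool.Agent.Lib.MP_4ffbf9_nt.MA.Final
import Pool.Agent.Lib.MP_4ffbf9_nt.SP.Defs

set_option autoImplicit false

namespace Pool.Agent.Lib.MP_4ffbf9_nt.SP

open MvPolynomial Pool.Agent.Subspace

theorem bk_bakerGen (m D : ℕ) : ∃ c : ℝ, 0 < c ∧ ∀ (ℓ : Fin m → ℂ) (a : Fin m → ℝ) (b : Fin m → ℤ)
    (_ : Fin m) (B : ℝ),
    (∀ i, 1 ≤ a i ∧ ‖ℓ i‖ ≤ a i ∧ ∃ P : Polynomial ℤ, P ≠ 0 ∧ P.natDegree ≤ D ∧
      (∀ j, |(P.coeff j : ℝ)| ≤ Real.exp (a i)) ∧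
      Polynomial.aeval (Complex.exp (ℓ i)) P = 0) →
    3 ≤ B → (∀ i, |(b i : ℝ)| ≤ B) → ∑ i, (b i : ℂ) * ℓ i ≠ 0 →
    Real.exp (-(c * (∏ i, a i) * Real.log B ^ 2)) ≤ ‖∑ i, (b i : ℂ) * ℓ i‖ := by
  obtain ⟨d, ρ, hρ, hN⟩ := MA.num m D
  obtain ⟨c, hc, h⟩ := MA.main1 d m
  refine ⟨c * ρ ^ m, by positivity, fun ℓ a b o B ha hB hb hΛ => ?_⟩
  obtain ⟨F, dn, hF, h1⟩ := hN (Fin m) ℓ a (Fintype.card_fin m).le ha
  refine le_trans (Real.exp_le_exp.2 (neg_le_neg (le_of_eq ?_))) (h F (Fin m) dn ℓ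
    (fun i => ρ * a i) (fun _ => 1) b o ∅ B hF (Fintype.card_fin m).le h1 (by simp) hB hb
    (fun i hi => by simp at hi) hΛ)
  rw [Finset.compl_empty, Finset.prod_mul_distrib, Finset.prod_const, Finset.card_univ,
    Fintype.card_fin]
  simp only [Finset.prod_empty, Finset.card_empty]
  ring

theorem bk_log_mem {r : ℕ} {a : ℝ} (hr : 0 < r) (h : (r : ℝ) ≤ Real.exp a) :
    0 ≤ Real.log r ∧ Real.log r ≤ a :=
  ⟨Real.log_natCast_nonneg r, (Real.log_le_iff_le_exp (by exact_mod_cast hr)).2 h⟩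

theorem bk_rat_data {r s : ℕ} {a : ℝ} (hr : 0 < r) (hs : 0 < s) (ha : 1 ≤ a)
    (h1 : (r : ℝ) ≤ Real.exp a) (h2 : (s : ℝ) ≤ Real.exp a) :
    1 ≤ a ∧ ‖((Real.log ((r : ℝ) / s) : ℝ) : ℂ)‖ ≤ a ∧ ∃ P : Polynomial ℤ, P ≠ 0 ∧
      P.natDegree ≤ 1 ∧ (∀ j, |(P.coeff j : ℝ)| ≤ Real.exp a) ∧
      Polynomial.aeval (Complex.exp ((Real.log ((r : ℝ) / s) : ℝ) : ℂ)) P = 0 := by
  have hr' : (0 : ℝ) < r := by exact_mod_cast hr
  have hs' : (0 : ℝ) < s := by exact_mod_cast hs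
  refine ⟨ha, ?_, Polynomial.C (s : ℤ) * Polynomial.X - Polynomial.C (r : ℤ), fun h0 => ?_, ?_,
    fun j => ?_, ?_⟩
  · obtain ⟨p1, p2⟩ := bk_log_mem hr h1
    obtain ⟨q1, q2⟩ := bk_log_mem hs h2
    rw [Complex.norm_real, Real.norm_eq_abs, Real.log_div hr'.ne' hs'.ne', abs_le]
    constructor <;> linarith
  · have := congrArg (fun P : Polynomial ℤ => P.coeff 0) h0
    simp only [Polynomial.coeff_sub, Polynomial.coeff_C_mul, Polynomial.coeff_X_zero,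
      Polynomial.coeff_C_zero, Polynomial.coeff_zero] at this
    omega
  · compute_degree
  · rw [Polynomial.coeff_sub, Polynomial.coeff_C_mul, Polynomial.coeff_X, Polynomial.coeff_C]
    have he := Real.exp_pos a
    by_cases j1 : 1 = j
    · subst j1
      simpa using h2
    · by_cases j0 : j = 0
      · subst j0
        simpa using h1
      · simpa [j1, j0] using he.le
  · rw [← Complex.ofReal_exp, Real.exp_log (div_pos hr' hs')]
    have : (s : ℂ) ≠ 0 := by exact_mod_cast hs.ne'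
    rw [map_sub, map_mul, Polynomial.aeval_C, Polynomial.aeval_C, Polynomial.aeval_X]
    simp only [eq_intCast, Int.cast_natCast, Complex.ofReal_div, Complex.ofReal_natCast]
    field_simp
    ring

/-- Baker bound for two logarithms of positive rationals (from `MA.num` and `MA.main1` with the
empty set of cheap logarithms, as in the hand-in CheapLogsAlg). -/
theorem baker2 : ∃ κ : ℝ, 0 < κ ∧ ∀ (r₁ s₁ r₂ s₂ n : ℕ) (a₁ a₂ : ℝ), 0 < r₁ → 0 < s₁ → 0 < r₂ →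
    0 < s₂ → 3 ≤ n → 1 ≤ a₁ → 1 ≤ a₂ → (r₁ : ℝ) ≤ Real.exp a₁ → (s₁ : ℝ) ≤ Real.exp a₁ →
    (r₂ : ℝ) ≤ Real.exp a₂ → (s₂ : ℝ) ≤ Real.exp a₂ → r₁ * r₂ ^ n ≠ s₁ * s₂ ^ n →
    Real.exp (-(κ * a₁ * a₂ * Real.log n ^ 2)) ≤
      |Real.log ((r₁ : ℝ) / s₁) + n * Real.log ((r₂ : ℝ) / s₂)| := by
  obtain ⟨c, hc, h⟩ := bk_bakerGen 2 1
  refine ⟨c, hc, fun r₁ s₁ r₂ s₂ n a₁ a₂ p1 q1 p2 q2 hn h1 h2 e1 f1 e2 f2 hne => ?_⟩
  have hn' : (3 : ℝ) ≤ n := by exact_mod_cast hn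
  have hs : ∑ i, ((![1, (n : ℤ)] i : ℤ) : ℂ) *
      ![((Real.log ((r₁ : ℝ) / s₁) : ℝ) : ℂ), ((Real.log ((r₂ : ℝ) / s₂) : ℝ) : ℂ)] i =
      ((Real.log ((r₁ : ℝ) / s₁) + n * Real.log ((r₂ : ℝ) / s₂) : ℝ) : ℂ) := by
    rw [Fin.sum_univ_two, Complex.ofReal_add, Complex.ofReal_mul]
    simp only [Matrix.cons_val_zero, Matrix.cons_val_one, Int.cast_one, one_mul, Int.cast_natCast,
      Complex.ofReal_natCast]
  have key := h ![((Real.log ((r₁ : ℝ) / s₁) : ℝ) : ℂ), ((Real.log ((r₂ : ℝ) / s₂) : ℝ) : ℂ)]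
    ![a₁, a₂] ![1, (n : ℤ)] 0 n
    (Fin.forall_fin_two.2 ⟨bk_rat_data p1 q1 h1 e1 f1, bk_rat_data p2 q2 h2 e2 f2⟩) hn'
    (Fin.forall_fin_two.2 ⟨by simp; linarith, by simp⟩) (by
      rw [hs, Complex.ofReal_ne_zero]
      intro h0
      apply hne
      have p1' : (0 : ℝ) < r₁ := by exact_mod_cast p1
      have q1' : (0 : ℝ) < s₁ := by exact_mod_cast q1
      have p2' : (0 : ℝ) < r₂ := by exact_mod_cast p2
      have q2' : (0 : ℝ) < s₂ := by exact_mod_cast q2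
      have : Real.log ((r₁ : ℝ) * r₂ ^ n) = Real.log ((s₁ : ℝ) * s₂ ^ n) := by
        rw [Real.log_div p1'.ne' q1'.ne', Real.log_div p2'.ne' q2'.ne'] at h0
        rw [Real.log_mul p1'.ne' (by positivity), Real.log_mul q1'.ne' (by positivity),
          Real.log_pow, Real.log_pow]
        linarith
      exact_mod_cast Real.log_injOn_pos (Set.mem_Ioi.2 (by positivity))
        (Set.mem_Ioi.2 (by positivity)) this)
  rw [hs, Complex.norm_real, Real.norm_eq_abs, Fin.prod_univ_two] at key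
  simpa only [Matrix.cons_val_zero, Matrix.cons_val_one, mul_assoc] using key

theorem bk_logs_close : ∃ κ : ℝ, 0 < κ ∧ ∀ (n a b c x y z : ℕ) (L A : ℝ), 3 ≤ n → 0 < a → 0 < b →
    0 < c → 0 < x → 0 < y → 0 < z → a * x ^ n + b * y ^ n = c * z ^ n → a * x ^ n ≤ b * y ^ n →
    1 ≤ L → 1 ≤ A → (a : ℝ) ≤ Real.exp L → (b : ℝ) ≤ Real.exp L → (c : ℝ) ≤ Real.exp L →
    (y : ℝ) ≤ Real.exp A → (z : ℝ) ≤ Real.exp A →
    n * |Real.log x - Real.log z| ≤ 1 + 2 * L + κ * L * A * Real.log n ^ 2 ∧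
      n * |Real.log y - Real.log z| ≤ 1 + 2 * L + κ * L * A * Real.log n ^ 2 := by
  obtain ⟨κ, hκ, h⟩ := baker2
  refine ⟨κ, hκ, fun n a b c x y z L A hn ha hb hc hx hy hz heq hle hL hA ea eb ec ey ez => ?_⟩
  have hU : 0 < a * x ^ n := by positivity
  have key := h c b z y n L A hc hb hz hy hn hL hA ec eb ez ey (by omega)
  obtain ⟨a1, a2⟩ := bk_log_mem ha ea
  obtain ⟨b1, b2⟩ := bk_log_mem hb eb
  obtain ⟨c1, c2⟩ := bk_log_mem hc ec
  have a' : (0 : ℝ) < a := by exact_mod_cast ha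
  have b' : (0 : ℝ) < b := by exact_mod_cast hb
  have c' : (0 : ℝ) < c := by exact_mod_cast hc
  have x' : (0 : ℝ) < x := by exact_mod_cast hx
  have y' : (0 : ℝ) < y := by exact_mod_cast hy
  have z' : (0 : ℝ) < z := by exact_mod_cast hz
  have lU : Real.log ((a : ℝ) * x ^ n) = Real.log a + n * Real.log x := by
    rw [Real.log_mul a'.ne' (by positivity), Real.log_pow]
  have lV : Real.log ((b : ℝ) * y ^ n) = Real.log b + n * Real.log y := by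
    rw [Real.log_mul b'.ne' (by positivity), Real.log_pow]
  have lW : Real.log ((c : ℝ) * z ^ n) = Real.log c + n * Real.log z := by
    rw [Real.log_mul c'.ne' (by positivity), Real.log_pow]
  have heq' : (a : ℝ) * x ^ n + b * y ^ n = c * z ^ n := by exact_mod_cast heq
  have hle' : (a : ℝ) * x ^ n ≤ b * y ^ n := by exact_mod_cast hle
  have U0 : (0 : ℝ) < a * x ^ n := by positivity
  have V0 : (0 : ℝ) < b * y ^ n := by positivity
  rw [Real.log_div c'.ne' b'.ne', Real.log_div z'.ne' y'.ne'] at key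
  generalize (a : ℝ) * x ^ n = U at *
  generalize (b : ℝ) * y ^ n = V at *
  generalize (c : ℝ) * z ^ n = W at *
  have w1 : Real.log V ≤ Real.log W := Real.log_le_log V0 (by linarith)
  have u1 : Real.log U ≤ Real.log V := Real.log_le_log U0 hle'
  have w2 : Real.log W - Real.log V ≤ U / V := by
    rw [← Real.log_div (by linarith) V0.ne']
    refine (Real.log_le_sub_one_of_pos (div_pos (by linarith) V0)).trans (le_of_eq ?_)
    rw [← heq']
    field_simp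
    ring
  have w3 : U / V ≤ 1 := (div_le_one V0).2 hle'
  have e : Real.log c - Real.log b + n * (Real.log z - Real.log y) = Real.log W - Real.log V := by
    rw [lW, lV]
    ring
  rw [e, abs_of_nonneg (by linarith)] at key
  have u2 : -(κ * L * A * Real.log n ^ 2) ≤ Real.log U - Real.log V := by
    rw [← Real.log_div U0.ne' V0.ne', Real.le_log_iff_exp_le (div_pos U0 V0)]
    exact key.trans w2
  have t0 : 0 ≤ κ * L * A * Real.log n ^ 2 := by positivity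
  have n0 : (0 : ℝ) ≤ n := Nat.cast_nonneg n
  constructor <;> rw [← abs_of_nonneg n0, ← abs_mul, abs_of_nonneg n0, mul_sub, abs_le] <;>
    constructor <;> linarith

theorem bk_near_of_log {x z : ℕ} {t : ℝ} (hx : 0 < x) (hz : 0 < z) (ht : t ≤ 1)
    (h : 2 * |Real.log x - Real.log z| ≤ t) : |(x : ℝ) / z - 1| ≤ t := by
  have x' : (0 : ℝ) < x := by exact_mod_cast hx
  have z' : (0 : ℝ) < z := by exact_mod_cast hz
  have := Real.abs_exp_sub_one_le (x := Real.log x - Real.log z)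
    (by linarith [abs_nonneg (Real.log x - Real.log z)])
  rw [Real.exp_sub, Real.exp_log x', Real.exp_log z'] at this
  exact this.trans h

theorem bk_inv_le_of_ne {x z : ℕ} (hz : 0 < z) (h : x ≠ z) : 1 ≤ |(x : ℝ) / z - 1| * z := by
  have z' : (0 : ℝ) < z := by exact_mod_cast hz
  have e : |(x : ℝ) / z - 1| * z = ((|(x : ℤ) - z| : ℤ) : ℝ) := by
    rw [← abs_of_pos z', ← abs_mul, abs_of_pos z', sub_mul, div_mul_cancel₀ _ z'.ne', one_mul]
    push_cast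
    rfl
  rw [e]
  exact_mod_cast Int.one_le_abs (sub_ne_zero.2 (by exact_mod_cast h) : (x : ℤ) - z ≠ 0)

theorem bk_num1 {κ e l p s t : ℝ} (hκ : 0 < κ) (l1 : 1 ≤ l) (p1 : 1 ≤ p) (s0 : 0 < s)
    (h : (10 + 4 * κ * (1 + 1 / e)) * l ^ 3 ≤ s)
    (ht : p * s * s * t ≤ 1 + 2 * (2 * p) + κ * (2 * p) * (l / e) * l ^ 2) : 2 * t ≤ s⁻¹ := by
  have l3 : 1 ≤ l ^ 3 := one_le_pow₀ l1
  have k1 : 0 ≤ κ * l ^ 3 := by positivity
  have : p * (10 + 4 * κ * (1 / e) * l ^ 3) ≤ p * s :=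
    mul_le_mul_of_nonneg_left (by linarith) (by linarith)
  have e1 : κ * (2 * p) * (l / e) * l ^ 2 = p * (2 * κ * (1 / e) * l ^ 3) := by ring
  rw [inv_eq_one_div, le_div_iff₀ s0]
  refine le_of_mul_le_mul_left (?_ : p * s * (2 * t * s) ≤ p * s * 1) (by positivity)
  rw [e1] at ht
  linarith

theorem bk_num2 {κ e l p s : ℝ} {n : ℕ} (hκ : 0 < κ) (he : 0 < e) (l1 : 1 ≤ l) (p1 : 1 ≤ p)
    (h : (10 + 4 * κ * (1 + 1 / e)) * l ^ 3 ≤ s) (ps : p * s * s = n) :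
    Real.exp (2 * p) ≤ 2 ^ n := by
  have l3 : 1 ≤ l ^ 3 := one_le_pow₀ l1
  have k0 : 0 ≤ κ * (1 + 1 / e) * l ^ 3 := by positivity
  have s10 : 10 ≤ s := by linarith
  rw [← Real.exp_log (show (0 : ℝ) < 2 ^ n by positivity), Real.log_pow, ← ps]
  refine Real.exp_le_exp.2 ?_
  have l2 := Real.log_two_gt_d9
  have : 100 ≤ s * s := by nlinarith
  have : 2 ≤ s * s * Real.log 2 := by nlinarith
  nlinarith

theorem bk_num3 {e J : ℝ} (he : 0 < e) (hJ : 2 / e ^ 2 ≤ J) : e⁻¹ ≤ e / 2 * (J + 1) := by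
  rw [div_le_iff₀ (by positivity)] at hJ
  rw [inv_eq_one_div, div_le_iff₀ he]
  nlinarith [sq_nonneg e]

/-- Baker puts `(x : y : z)` in the window. -/
theorem close (ε : ℝ) (hε : 0 < ε) (hε1 : ε < 1) : ∃ J : ℕ, 1 ≤ J ∧ ∀ h0 : ℕ, ∃ n1 : ℕ,
    ∀ n a b c x y z : ℕ, n1 ≤ n → 0 < a → 0 < b → 0 < c → 0 < x → 0 < y → 0 < z →
      a * x ^ n + b * y ^ n = c * z ^ n → Nat.Coprime x y → Nat.Coprime x z → Nat.Coprime y z →
      2 ≤ max x (max y z) → ((max x (max y z) : ℕ) : ℝ) ^ ε ≤ n →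
      (a : ℝ) ≤ Real.exp (2 * (n : ℝ) ^ (1 - ε)) → (b : ℝ) ≤ Real.exp (2 * (n : ℝ) ^ (1 - ε)) →
      (c : ℝ) ≤ Real.exp (2 * (n : ℝ) ^ (1 - ε)) →
      h0 ≤ z ∧ Near J x z ∧ Near J y z ∧ a ≤ 2 ^ n ∧ b ≤ 2 ^ n ∧ c ≤ 2 ^ n := by
  obtain ⟨κ, hκ, h⟩ := bk_logs_close
  obtain ⟨J, hJ⟩ := exists_nat_ge (2 / ε ^ 2)
  refine ⟨J + 1, by omega, fun h0 => ?_⟩
  have hC : 0 < 10 + 4 * κ * (1 + 1 / ε) := by positivity
  have E1 := tendsto_natCast_atTop_atTop.eventually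
    ((isLittleO_log_rpow_rpow_atTop (3 : ℝ) (half_pos hε)).bound (inv_pos.2 hC))
  have E2 := ((tendsto_rpow_atTop (half_pos hε)).comp
    (tendsto_natCast_atTop_atTop (R := ℝ))).eventually_ge_atTop (h0 : ℝ)
  obtain ⟨n1, hn1⟩ := Filter.eventually_atTop.1 (E1.and (E2.and (Filter.eventually_ge_atTop 3)))
  refine ⟨n1, fun n a b c x y z hn ha hb hc hx hy hz heq cxy cxz cyz h2 hh ea eb ec => ?_⟩
  obtain ⟨e1, e2, n3⟩ := hn1 n hn
  have n3' : (3 : ℝ) ≤ n := by exact_mod_cast n3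
  have n0 : (0 : ℝ) < n := by linarith
  have l1 : 1 ≤ Real.log n := by
    rw [Real.le_log_iff_exp_le n0]
    linarith [Real.exp_one_lt_d9]
  set s : ℝ := (n : ℝ) ^ (ε / 2) with hs
  have s1 : 1 ≤ s := Real.one_le_rpow (by linarith) (half_pos hε).le
  have s0 : 0 < s := by linarith
  set p : ℝ := (n : ℝ) ^ (1 - ε) with hp
  have p1 : 1 ≤ p := Real.one_le_rpow (by linarith) (by linarith)
  have ps : p * s * s = n := by
    rw [hs, hp, ← Real.rpow_add n0, ← Real.rpow_add n0, show 1 - ε + ε / 2 + ε / 2 = 1 by ring,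
      Real.rpow_one]
  have e1' : (10 + 4 * κ * (1 + 1 / ε)) * Real.log n ^ 3 ≤ s := by
    rw [Real.norm_of_nonneg s0.le, Real.norm_of_nonneg (by positivity), inv_mul_eq_div,
      le_div_iff₀ hC, show (3 : ℝ) = ((3 : ℕ) : ℝ) by norm_num, Real.rpow_natCast] at e1
    linarith
  have hm : ∀ w : ℕ, w ≤ max x (max y z) → (w : ℝ) ≤ Real.exp (Real.log n / ε) := fun w hw => by
    rw [div_eq_mul_inv, ← Real.rpow_def_of_pos n0]
    refine le_trans (Nat.cast_le.2 hw) ?_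
    rw [Real.le_rpow_inv_iff_of_pos (Nat.cast_nonneg _) n0.le hε]
    exact hh
  have A1 : 1 ≤ Real.log n / ε := by
    rw [le_div_iff₀ hε]
    linarith
  have fin : ∀ t : ℝ,
      n * t ≤ 1 + 2 * (2 * p) + κ * (2 * p) * (Real.log n / ε) * Real.log n ^ 2 →
      2 * t ≤ s⁻¹ := fun t ht => bk_num1 hκ l1 p1 s0 e1' (ps ▸ ht)
  have both : 2 * |Real.log x - Real.log z| ≤ s⁻¹ ∧ 2 * |Real.log y - Real.log z| ≤ s⁻¹ := by
    rcases le_total (a * x ^ n) (b * y ^ n) with hle | hle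
    · obtain ⟨u, v⟩ := h n a b c x y z (2 * p) _ n3 ha hb hc hx hy hz heq hle (by linarith) A1
        ea eb ec (hm y (by omega)) (hm z (by omega))
      exact ⟨fin _ u, fin _ v⟩
    · obtain ⟨u, v⟩ := h n b a c y x z (2 * p) _ n3 hb ha hc hy hx hz (by omega) hle (by linarith)
        A1 eb ea ec (hm x (by omega)) (hm z (by omega))
      exact ⟨fin _ v, fin _ u⟩
  have si : s⁻¹ ≤ 1 := inv_le_one_of_one_le₀ s1
  have nx := bk_near_of_log hx hz si both.1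
  have ny := bk_near_of_log hy hz si both.2
  have z0 : (0 : ℝ) ≤ z := Nat.cast_nonneg z
  have zs : (z : ℝ) ≤ s ^ (J + 1) := by
    refine (hm z (by omega)).trans ?_
    rw [hs, ← Real.rpow_natCast, ← Real.rpow_mul n0.le, Real.rpow_def_of_pos n0, div_eq_mul_inv]
    refine Real.exp_le_exp.2 (mul_le_mul_of_nonneg_left ?_ (by linarith))
    exact_mod_cast bk_num3 hε hJ
  have near : ∀ w : ℕ, |(w : ℝ) / z - 1| ≤ s⁻¹ → Near (J + 1) w z := fun w hw => by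
    refine (mul_le_mul (pow_le_pow_left₀ (abs_nonneg _) hw _) zs z0 (by positivity)).trans ?_
    rw [← mul_pow, inv_mul_cancel₀ s0.ne', one_pow]
  have big : ∀ w : ℕ, |(w : ℝ) / z - 1| ≤ s⁻¹ → w ≠ z → h0 ≤ z := fun w hw hne => by
    have t := (bk_inv_le_of_ne hz hne).trans (mul_le_mul_of_nonneg_right hw z0)
    rw [inv_mul_eq_div, le_div_iff₀ s0, one_mul] at t
    exact_mod_cast (le_trans e2 t : (h0 : ℝ) ≤ z)
  have two : ∀ w : ℕ, (w : ℝ) ≤ Real.exp (2 * p) → w ≤ 2 ^ n := fun w hw => by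
    exact_mod_cast hw.trans (bk_num2 hκ hε l1 p1 e1' ps)
  refine ⟨?_, near x nx, near y ny, two a ea, two b eb, two c ec⟩
  by_cases hxz : x = z
  · refine big y ny fun hyz => ?_
    subst hxz
    subst hyz
    have := Nat.coprime_self y |>.1 cxy
    omega
  · exact big x nx hxz

end Pool.Agent.Lib.MP_4ffbf9_nt.SP
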