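import Mathlib
import Pool.Agent.Lib.MP_4ffbf9_nt.SP.Defs

set_option autoImplicit false

namespace Pool.Agent.Lib.MP_4ffbf9_nt.SP

open MvPolynomial Pool.Agent.Subspace

theorem auxA_coeff_zero_shift (δ : Fin 2 → ℝ) (H : MvPolynomial (Fin 2) ℝ) :
    coeff 0 (shift δ H) = eval δ H := by
  have e : (constantCoeff : MvPolynomial (Fin 2) ℝ →+* ℝ).comp
      (shift δ : MvPolynomial (Fin 2) ℝ →ₐ[ℝ] MvPolynomial (Fin 2) ℝ).toRingHom = eval δ := by
    refine MvPolynomial.ringHom_ext (fun r => ?_) (fun i => ?_)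
    · simp [shift]
    · simp [shift]
  exact RingHom.congr_fun e H

theorem auxA_eval_le (δ : Fin 2 → ℝ) {η : ℝ} (h0 : 0 ≤ η) (h1 : η ≤ 1) (hδ : ∀ i, |δ i| ≤ η)
    (H : MvPolynomial (Fin 2) ℝ) {t : ℕ} (ht : ∀ μ ∈ H.support, t ≤ μ 0 + μ 1) :
    |eval δ H| ≤ l1 H * η ^ t := by
  rw [eval_eq', l1, Finset.sum_mul]
  refine (Finset.abs_sum_le_sum_abs _ _).trans (Finset.sum_le_sum fun μ hμ => ?_)
  rw [abs_mul, Real.norm_eq_abs]
  refine mul_le_mul_of_nonneg_left ?_ (abs_nonneg _)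
  rw [Fin.prod_univ_two, abs_mul, abs_pow, abs_pow]
  calc |δ 0| ^ μ 0 * |δ 1| ^ μ 1 ≤ η ^ μ 0 * η ^ μ 1 :=
        mul_le_mul (pow_le_pow_left₀ (abs_nonneg _) (hδ 0) _)
          (pow_le_pow_left₀ (abs_nonneg _) (hδ 1) _) (by positivity) (by positivity)
    _ = η ^ (μ 0 + μ 1) := (pow_add _ _ _).symm
    _ ≤ η ^ t := pow_le_pow_of_le_one h0 h1 (ht μ hμ)

theorem auxA_coeff_shift_le (δ : Fin 2 → ℝ) {η : ℝ} (h0 : 0 ≤ η) (h1 : η ≤ 1)
    (hδ : ∀ i, |δ i| ≤ η) (Q : MvPolynomial (Fin 2) ℝ) {m E t : ℕ}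
    (hm : ∀ μ ∈ Q.support, m ≤ μ 0 + μ 1) (hE : ∀ μ ∈ Q.support, μ 0 + μ 1 ≤ E)
    (ν : Fin 2 →₀ ℕ) (hν : ν 0 + ν 1 + t ≤ m) :
    |coeff ν (shift δ Q)| ≤ 2 ^ E * l1 Q * η ^ t := by
  have e1 : coeff ν (shift δ Q) = coeff 0 (hasse ν (shift δ Q)) := by
    rw [coeff_hasse, zero_add]
    simp [binom]
  rw [e1, hasse_shift, auxA_coeff_zero_shift]
  refine (auxA_eval_le δ h0 h1 hδ _ (t := t) fun μ hμ => ?_).trans ?_
  · have h2 := hm _ (mem_support_hasse hμ)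
    simp only [Finsupp.add_apply] at h2
    omega
  · refine mul_le_mul_of_nonneg_right ?_ (by positivity)
    exact l1_hasse_le ν Q fun μ hμ => by rw [Fin.sum_univ_two]; exact hE μ hμ

theorem auxA_l1_shift_one (P : R2) {E : ℕ} (hE : ∀ μ ∈ P.support, μ 0 + μ 1 ≤ E) :
    l1 (shift (fun _ => (1 : ℝ)) (map (Int.castRingHom ℝ) P)) ≤ l1 P * 2 ^ E := by
  have e : shift (fun _ => (1 : ℝ)) (map (Int.castRingHom ℝ) P) =
      eval₂ (C.comp (Int.castRingHom ℝ))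
        (fun i : Fin 2 => (C 1 + X i : MvPolynomial (Fin 2) ℝ)) P := by
    rw [shift, aeval_def, eval₂_map]
    rfl
  rw [e]
  refine l1_eval₂_le _ (fun a => ?_) _ P fun μ hμ => ?_
  · exact (Int.norm_cast_real a).le
  · have h2 : ∀ i : Fin 2, l1 (C 1 + X i : MvPolynomial (Fin 2) ℝ) ≤ 2 := fun i => by
      refine (l1_add_le _ _).trans ?_
      rw [l1_C, l1_X, norm_one]
      norm_num
    calc ∏ i ∈ μ.support, l1 (C 1 + X i : MvPolynomial (Fin 2) ℝ) ^ μ i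
        ≤ ∏ i ∈ μ.support, (2 : ℝ) ^ μ i :=
          Finset.prod_le_prod (fun i _ => pow_nonneg (l1_nonneg _) _)
            fun i _ => pow_le_pow_left₀ (l1_nonneg _) (h2 i) _
      _ = ∏ i : Fin 2, (2 : ℝ) ^ μ i := by
          refine Finset.prod_subset (Finset.subset_univ _) fun i _ hi => ?_
          rw [Finsupp.notMem_support_iff.mp hi, pow_zero]
      _ = 2 ^ (μ 0 + μ 1) := by rw [Fin.prod_univ_two, pow_add]
      _ ≤ 2 ^ E := pow_le_pow_right₀ (by norm_num) (hE μ hμ)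

theorem auxA_one (P : R2) {D m t : ℕ} (hD : ∀ i, DegLe i D P)
    (hm : ∀ μ : Fin 2 →₀ ℕ, μ 0 + μ 1 < m → coeff μ (shift (fun _ => 1) P) = 0)
    (p : Fin 2 → ℝ) {η : ℝ} (h0 : 0 ≤ η) (h1 : η ≤ 1) (hp : ∀ i, |p i - 1| ≤ η)
    (ν : Fin 2 →₀ ℕ) (hν : ν 0 + ν 1 + t ≤ m) :
    |coeff ν (shift p (map (Int.castRingHom ℝ) P))| ≤ 16 ^ D * l1 P * η ^ t := by
  have e1 : shift p (map (Int.castRingHom ℝ) P) =
      shift (fun i => p i - 1) (shift (fun _ => (1 : ℝ)) (map (Int.castRingHom ℝ) P)) := by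
    rw [shift_shift]
    have e : ((fun i => p i - 1) + fun _ => (1 : ℝ)) = p := by
      funext i
      simp
    rw [e]
  have e2 : shift (fun _ => (1 : ℝ)) (map (Int.castRingHom ℝ) P) =
      map (Int.castRingHom ℝ) (shift (fun _ => 1) P) := by
    rw [map_shift]
    simp
  have hE : ∀ μ ∈ P.support, μ 0 + μ 1 ≤ 2 * D := fun μ hμ => by
    have a0 := hD 0 μ hμ
    have a1 := hD 1 μ hμ
    omega
  rw [e1]
  refine (auxA_coeff_shift_le _ h0 h1 hp _ (m := m) (E := 2 * D) (fun μ hμ => ?_)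
    (fun μ hμ => ?_) ν hν).trans ?_
  · rw [e2] at hμ
    have h2 := support_map_subset _ _ hμ
    by_contra h3
    exact (mem_support_iff.mp h2) (hm μ (not_le.mp h3))
  · rw [e2] at hμ
    have h2 := support_map_subset _ _ hμ
    have a0 := (hD 0).shift (fun _ => 1) μ h2
    have a1 := (hD 1).shift (fun _ => 1) μ h2
    omega
  · refine mul_le_mul_of_nonneg_right ?_ (by positivity)
    have h2 := auxA_l1_shift_one P hE
    calc (2 : ℝ) ^ (2 * D) * l1 (shift (fun _ => (1 : ℝ)) (map (Int.castRingHom ℝ) P))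
        ≤ 2 ^ (2 * D) * (l1 P * 2 ^ (2 * D)) :=
          mul_le_mul_of_nonneg_left h2 (by positivity)
      _ = 16 ^ D * l1 P := by
          have e : (16 : ℝ) ^ D = 2 ^ (2 * D) * 2 ^ (2 * D) := by
            rw [pow_mul, ← mul_pow]
            norm_num
          rw [e]
          ring

theorem auxA_uu_le {n a b c x y z : ℕ} (hs : Sol n a b c x y z) :
    |((uu n a c x z : ℚ) : ℝ)| ≤ 1 := by
  have hc : (0 : ℝ) < c := by exact_mod_cast hs.hc
  have hz : (0 : ℝ) < z := by exact_mod_cast hs.hz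
  have he : (a : ℝ) * x ^ n + b * y ^ n = c * z ^ n := by exact_mod_cast hs.eq
  have hp : (0 : ℝ) < c * z ^ n := by positivity
  have h1 : (0 : ℝ) ≤ a * x ^ n := by positivity
  have h2 : (0 : ℝ) ≤ b * y ^ n := by positivity
  unfold uu
  push_cast
  rw [abs_div, abs_neg, abs_of_nonneg h1, abs_of_pos hp, div_le_one hp]
  linarith

theorem auxA_coeff_GG {r : ℕ} (P : Fin r → R2) (u : ℚ) (p : Fin 2 → ℚ) (ν : Fin 2 →₀ ℕ) :
    ((coeff ν (shift p (GG P u)) : ℚ) : ℝ) =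
      ∑ l : Fin r, (u : ℝ) ^ (l : ℕ) *
        coeff ν (shift (fun i => (p i : ℝ)) (map (Int.castRingHom ℝ) (P l))) := by
  unfold GG
  rw [map_sum, coeff_sum]
  push_cast
  refine Finset.sum_congr rfl fun l _ => ?_
  have e1 : shift p (C (u ^ (l : ℕ)) * toQ (P l)) = C (u ^ (l : ℕ)) * shift p (toQ (P l)) := by
    rw [map_mul]
    simp [shift]
  have e2 : map (Rat.castHom ℝ) (shift p (toQ (P l))) =
      shift (fun i => (p i : ℝ)) (map (Int.castRingHom ℝ) (P l)) := by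
    rw [map_shift, map_map]
    have e : (Rat.castHom ℝ).comp (Int.castRingHom ℚ) = Int.castRingHom ℝ :=
      RingHom.ext_int _ _
    rw [e]
    rfl
  rw [e1, coeff_C_mul, ← e2, coeff_map]
  push_cast
  rfl

/-- Step 3, analytic half: the Taylor coefficient is small in the window. -/
theorem GG_small {J n a b c x y z : ℕ} {K : ℝ} {P : Fin (400 * J ^ 2 + 7) → R2}
    {cc : (Fin 2 →₀ ℕ) → Polynomial ℤ} (hJ : 1 ≤ J) (hn : 1 ≤ n) (hK : 1 ≤ K)
    (h : Aux J n K P cc) (hs : Sol n a b c x y z) (hx : Near J x z) (hy : Near J y z)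
    (ν : Fin 2 →₀ ℕ) (hν : ν 0 + ν 1 ≤ 3 * n) :
    |((coeff ν (shift (pt x y z) (GG P (uu n a c x z))) : ℚ) : ℝ)| * (z : ℝ) ^ (15 * n) ≤
      (400 * J ^ 2 + 7) * (16 ^ (200 * J ^ 2) * K) ^ n := by
  have hz : (1 : ℝ) ≤ z := by exact_mod_cast hs.hz
  obtain ⟨η, h0, hη, hp⟩ : ∃ η : ℝ, 0 ≤ η ∧ η ^ J * z ≤ 1 ∧
      ∀ i, |((pt x y z i : ℚ) : ℝ) - 1| ≤ η := by
    refine ⟨max |(y : ℝ) / z - 1| |(x : ℝ) / z - 1|, le_max_of_le_left (abs_nonneg _), ?_,
      fun i => ?_⟩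
    · rcases max_choice |(y : ℝ) / z - 1| |(x : ℝ) / z - 1| with e | e
      · rw [e]
        exact hy
      · rw [e]
        exact hx
    · fin_cases i
      · simp [pt]
      · simp [pt]
  have h1 : η ≤ 1 := by
    have h2 : η ^ J ≤ 1 := by
      have h3 : η ^ J * 1 ≤ η ^ J * z := mul_le_mul_of_nonneg_left hz (by positivity)
      linarith
    exact (pow_le_one_iff_of_nonneg h0 (by omega)).mp h2
  have hu := auxA_uu_le hs
  have ht : ν 0 + ν 1 + J * (15 * n) ≤ 20 * J * n := by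
    have h2 : 1 * n ≤ J * n := Nat.mul_le_mul_right n hJ
    nlinarith
  have hl : ∀ l : Fin (400 * J ^ 2 + 7),
      |((uu n a c x z : ℚ) : ℝ) ^ (l : ℕ) *
        coeff ν (shift (fun i => ((pt x y z i : ℚ) : ℝ)) (map (Int.castRingHom ℝ) (P l)))| *
          (z : ℝ) ^ (15 * n) ≤ (16 ^ (200 * J ^ 2) * K) ^ n := fun l => by
    have h2 := auxA_one (P l) (h.degLe l) (h.van l) _ h0 h1 hp ν ht
    have h3 : |((uu n a c x z : ℚ) : ℝ)| ^ (l : ℕ) ≤ 1 := pow_le_one₀ (abs_nonneg _) hu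
    have h4 : η ^ (J * (15 * n)) * (z : ℝ) ^ (15 * n) ≤ 1 := by
      rw [pow_mul, ← mul_pow]
      exact pow_le_one₀ (by positivity) hη
    have h5 := h.l1_le l
    have h6 := l1_nonneg (P l)
    rw [abs_mul, abs_pow]
    calc |((uu n a c x z : ℚ) : ℝ)| ^ (l : ℕ) *
          |coeff ν (shift (fun i => ((pt x y z i : ℚ) : ℝ)) (map (Int.castRingHom ℝ) (P l)))| *
            (z : ℝ) ^ (15 * n)
        ≤ 1 * (16 ^ (n * (200 * J ^ 2)) * l1 (P l) * η ^ (J * (15 * n))) * (z : ℝ) ^ (15 * n) :=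
          mul_le_mul_of_nonneg_right (mul_le_mul h3 h2 (abs_nonneg _) zero_le_one)
            (by positivity)
      _ = 16 ^ (n * (200 * J ^ 2)) * l1 (P l) * (η ^ (J * (15 * n)) * (z : ℝ) ^ (15 * n)) := by
          ring
      _ ≤ 16 ^ (n * (200 * J ^ 2)) * K ^ n * 1 :=
          mul_le_mul (mul_le_mul_of_nonneg_left h5 (by positivity)) h4 (by positivity)
            (by positivity)
      _ = (16 ^ (200 * J ^ 2) * K) ^ n := by
          rw [mul_one, mul_pow, ← pow_mul, mul_comm n]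
  rw [auxA_coeff_GG]
  refine (mul_le_mul_of_nonneg_right (Finset.abs_sum_le_sum_abs _ _) (by positivity)).trans ?_
  rw [Finset.sum_mul]
  refine (Finset.sum_le_sum fun l _ => hl l).trans ?_
  rw [Finset.sum_const, Finset.card_univ, Fintype.card_fin, nsmul_eq_mul]
  push_cast
  exact le_rfl

end Pool.Agent.Lib.MP_4ffbf9_nt.SP
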