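import Mathlib
import Pool.Agent.Lib.MP_4ffbf9_nt.SP.Defs

set_option autoImplicit false

namespace Pool.Agent.Lib.MP_4ffbf9_nt.SP

open MvPolynomial Pool.Agent.Subspace

theorem coeff_GG {J n : ℕ} {K : ℝ} {P : Fin (400 * J ^ 2 + 7) → R2}
    {cc : (Fin 2 →₀ ℕ) → Polynomial ℤ} (hJ : 1 ≤ J) (h : Aux J n K P cc) (u : ℚ)
    (ν : Fin 2 →₀ ℕ) :
    coeff ν (GG P u) =
      u ^ al J n (ν 1) * (u + 1) ^ al J n (ν 0) * Polynomial.aeval u (cc ν) := by
  set F : Polynomial ℤ :=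
    Polynomial.X ^ al J n (ν 1) * (Polynomial.X + 1) ^ al J n (ν 0) * cc ν with hF
  have hal : ∀ i, al J n i + 1 ≤ 200 * J ^ 2 := fun i => by
    have : 1 ≤ J ^ 2 := Nat.one_le_pow _ _ hJ
    unfold al
    generalize i / n = q
    omega
  have h1 : (Polynomial.X + 1 : Polynomial ℤ).natDegree ≤ 1 := by
    refine (Polynomial.natDegree_add_le _ _).trans ?_
    simp
  have hdeg : F.natDegree < 400 * J ^ 2 + 7 := by
    have a1 : (Polynomial.X ^ al J n (ν 1) : Polynomial ℤ).natDegree ≤ al J n (ν 1) := by simp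
    have a2 : ((Polynomial.X + 1) ^ al J n (ν 0) : Polynomial ℤ).natDegree ≤ al J n (ν 0) := by
      simpa using Polynomial.natDegree_pow_le_of_le (al J n (ν 0)) h1
    have a3 : F.natDegree ≤ _ :=
      Polynomial.natDegree_mul_le_of_le (Polynomial.natDegree_mul_le_of_le a1 a2) (h.deg ν)
    have b0 := hal (ν 0)
    have b1 := hal (ν 1)
    omega
  have hev : Polynomial.aeval u F =
      u ^ al J n (ν 1) * (u + 1) ^ al J n (ν 0) * Polynomial.aeval u (cc ν) := by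
    simp [hF]
  rw [← hev, Polynomial.aeval_eq_sum_range' hdeg, GG, coeff_sum,
    ← Fin.sum_univ_eq_sum_range (fun i => F.coeff i • u ^ i)]
  refine Finset.sum_congr rfl fun l _ => ?_
  rw [coeff_C_mul, coeff_map, h.coe, zsmul_eq_mul, mul_comm]
  rfl

/-- Step 2. -/
theorem GG_ne {J n a b c x y z : ℕ} {K : ℝ} {P : Fin (400 * J ^ 2 + 7) → R2}
    {cc : (Fin 2 →₀ ℕ) → Polynomial ℤ} (hJ : 1 ≤ J) (hn : 1 ≤ n) (hK : 1 ≤ K)
    (h : Aux J n K P cc) (hs : Sol n a b c x y z) (hz : 2 * K < z) :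
    GG P (uu n a c x z) ≠ 0 := by
  intro h0
  obtain ⟨ν, hν⟩ := h.ne
  have hc := coeff_GG hJ h (uu n a c x z) ν
  rw [h0, coeff_zero] at hc
  have ha : (0 : ℚ) < a := by exact_mod_cast hs.ha
  have hb : (0 : ℚ) < b := by exact_mod_cast hs.hb
  have hcc : (0 : ℚ) < c := by exact_mod_cast hs.hc
  have hx : (0 : ℚ) < x := by exact_mod_cast hs.hx
  have hy : (0 : ℚ) < y := by exact_mod_cast hs.hy
  have hz' : (0 : ℚ) < z := by exact_mod_cast hs.hz
  have heq : (a : ℚ) * x ^ n + b * y ^ n = c * z ^ n := by exact_mod_cast hs.eq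
  have hu : uu n a c x z * (c * z ^ n) = -(a * x ^ n) := by
    unfold uu
    field_simp
  have hu0 : uu n a c x z ≠ 0 := fun e => by
    rw [e] at hu
    have : (0 : ℚ) < a * x ^ n := by positivity
    linarith
  have hu1 : uu n a c x z + 1 ≠ 0 := fun e => by
    rw [eq_neg_of_add_eq_zero_left e] at hu
    have : (0 : ℚ) < b * y ^ n := by positivity
    linarith
  have hroot : Polynomial.aeval (uu n a c x z) (cc ν) = 0 :=
    (mul_eq_zero.1 hc.symm).resolve_left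
      (mul_ne_zero (pow_ne_zero _ hu0) (pow_ne_zero _ hu1))
  have hd := den_dvd_of_is_root hroot
  set d : ℤ := (IsFractionRing.den ℤ (uu n a c x z) : ℤ) with hdd
  have hnum : uu n a c x z * (d : ℚ) = (IsFractionRing.num ℤ (uu n a c x z) : ℚ) :=
    (IsFractionRing.num_mul_den_eq_num_iff_eq (A := ℤ) (x := uu n a c x z)).2 rfl
  have hint : ((a : ℤ) * d) * x ^ n = -(IsFractionRing.num ℤ (uu n a c x z) * c) * z ^ n := by
    have : (((a : ℤ) * d * x ^ n : ℤ) : ℚ) =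
        ((-(IsFractionRing.num ℤ (uu n a c x z) * c) * z ^ n : ℤ) : ℚ) := by
      push_cast
      rw [← hnum]
      linear_combination (d : ℚ) * hu
    exact_mod_cast this
  have hcop : IsCoprime ((z : ℤ) ^ n) ((x : ℤ) ^ n) :=
    (Nat.isCoprime_iff_coprime.2 hs.cxz.symm).pow
  have hdv : (z : ℤ) ^ n ∣ a * (cc ν).leadingCoeff :=
    (hcop.dvd_of_dvd_mul_right (hint ▸ Dvd.intro_left _ rfl)).trans (mul_dvd_mul_left _ hd)
  have hne : (a : ℤ) * (cc ν).leadingCoeff ≠ 0 :=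
    mul_ne_zero (by exact_mod_cast hs.ha.ne') (Polynomial.leadingCoeff_ne_zero.2 hν)
  have hle : (z : ℤ) ^ n ≤ |(a : ℤ) * (cc ν).leadingCoeff| :=
    Int.le_of_dvd (abs_pos.2 hne) ((dvd_abs _ _).2 hdv)
  have hle' : (z : ℝ) ^ n ≤ a * |((cc ν).leadingCoeff : ℝ)| := by
    have : (((z : ℤ) ^ n : ℤ) : ℝ) ≤ ((|(a : ℤ) * (cc ν).leadingCoeff| : ℤ) : ℝ) := by
      exact_mod_cast hle
    simpa [abs_mul] using this
  have h2 : (a : ℝ) ≤ 2 ^ n := by exact_mod_cast hs.a_le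
  have h3 : (a : ℝ) * |((cc ν).leadingCoeff : ℝ)| ≤ (2 * K) ^ n := by
    rw [mul_pow]
    exact mul_le_mul h2 (h.size ν _) (abs_nonneg _) (by positivity)
  have h4 : (2 * K) ^ n < (z : ℝ) ^ n := pow_lt_pow_left₀ hz (by linarith) (by omega)
  linarith

end Pool.Agent.Lib.MP_4ffbf9_nt.SP
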