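import Mathlib
import Pool.Agent.Lib.MP_4ffbf9_nt.SP.AuxN

set_option autoImplicit false

namespace Pool.Agent.Lib.MP_4ffbf9_nt.SP

open MvPolynomial Pool.Agent.Subspace

theorem coeff_zero_shift_D (p : Fin 2 → ℚ) (G : Q2) : coeff 0 (shift p G) = eval p G := by
  rw [← constantCoeff_eq]
  induction G using MvPolynomial.induction_on with
  | C a => simp [shift]
  | add P Q hP hQ => simp only [map_add, hP, hQ]
  | mul_X P j hP => simp only [map_mul, hP, shift_X, map_add, constantCoeff_C, constantCoeff_X,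
      add_zero, eval_X]

theorem coeff_shift_D (p : Fin 2 → ℚ) (G : Q2) (ν : Fin 2 →₀ ℕ) :
    coeff ν (shift p G) = ∑ ρ ∈ G.support,
      (binom ρ ν : ℚ) * coeff ρ G * (p 0 ^ (ρ 0 - ν 0) * p 1 ^ (ρ 1 - ν 1)) := by
  have h1 : coeff ν (shift p G) = coeff 0 (hasse ν (shift p G)) := by
    rw [coeff_hasse, zero_add]; simp [binom]
  rw [h1, hasse_shift, coeff_zero_shift_D]
  conv_lhs => rw [G.as_sum, map_sum, map_sum]
  refine Finset.sum_congr rfl fun ρ _ => ?_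
  rw [hasse_monomial, eval_monomial, Finsupp.prod_fintype _ _ (by simp), Fin.prod_univ_two]
  simp

theorem aeval_int_D {f : Polynomial ℤ} (hf : f.natDegree ≤ 8) (s w : ℤ) (hw : w ≠ 0) :
    ∃ T : ℤ, (T : ℚ) = (w : ℚ) ^ 8 * Polynomial.aeval ((s : ℚ) / w) f := by
  refine ⟨∑ e ∈ Finset.range 9, f.coeff e * s ^ e * w ^ (8 - e), ?_⟩
  rw [Polynomial.aeval_eq_sum_range' (n := 9) (by omega), Finset.mul_sum]
  push_cast
  refine Finset.sum_congr rfl fun e he => ?_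
  have he' : e ≤ 8 := by have := Finset.mem_range.mp he; omega
  have hw' : (w : ℚ) ≠ 0 := by exact_mod_cast hw
  have h8 : (w : ℚ) ^ 8 = w ^ (8 - e) * w ^ e := by rw [← pow_add, Nat.sub_add_cancel he']
  rw [h8, zsmul_eq_mul, div_pow]
  field_simp

/-- Step 3, arithmetic half: the Taylor coefficient times a denominator is an integer multiple
of large powers of `x`, `y`, `z`. -/
theorem GG_dvd {J n a b c x y z : ℕ} {K : ℝ} {P : Fin (400 * J ^ 2 + 7) → R2}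
    {cc : (Fin 2 →₀ ℕ) → Polynomial ℤ} (hJ : 1 ≤ J) (hn : 1 ≤ n)
    (h : Aux J n K P cc) (hs : Sol n a b c x y z) (ν : Fin 2 →₀ ℕ) (hν : ν 0 + ν 1 ≤ 3 * n) :
    ∃ N : ℤ, (N : ℚ) = ((c : ℚ) * z ^ n) ^ (400 * J ^ 2 + 6) *
        (z : ℚ) ^ (n * (400 * J ^ 2) - ν 0 - ν 1) *
        coeff ν (shift (pt x y z) (GG P (uu n a c x z))) ∧
      (x : ℤ) ^ (n * (200 * J ^ 2 - 1) - ν 1) * (y : ℤ) ^ (n * (200 * J ^ 2 - 1) - ν 0) *
        (z : ℤ) ^ (n * (400 * J ^ 2 - 2)) ∣ N := by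
  obtain ⟨m, hm⟩ : ∃ m, 200 * J ^ 2 = m + 4 := ⟨200 * J ^ 2 - 4, by
    have : 1 ≤ J ^ 2 := Nat.one_le_pow _ _ hJ
    omega⟩
  have hm2 : 400 * J ^ 2 = 2 * m + 8 := by omega
  have hz : (z : ℚ) ≠ 0 := by have := hs.hz; positivity
  have hc : (c : ℚ) ≠ 0 := by have := hs.hc; positivity
  have hu1 : uu n a c x z + 1 = (b : ℚ) * y ^ n / ((c : ℚ) * z ^ n) := by
    have he : (a : ℚ) * x ^ n + b * y ^ n = c * z ^ n := by exact_mod_cast hs.eq
    rw [uu]; field_simp; linear_combination -he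
  rw [coeff_shift_D, Finset.mul_sum]
  refine Finset.sum_induction _ (fun q : ℚ => ∃ N : ℤ, (N : ℚ) = q ∧
    (x : ℤ) ^ (n * (200 * J ^ 2 - 1) - ν 1) * (y : ℤ) ^ (n * (200 * J ^ 2 - 1) - ν 0) *
        (z : ℤ) ^ (n * (400 * J ^ 2 - 2)) ∣ N) ?_ ⟨0, by simp, dvd_zero _⟩ ?_
  · rintro q1 q2 ⟨N1, e1, d1⟩ ⟨N2, e2, d2⟩
    exact ⟨N1 + N2, by rw [Int.cast_add, e1, e2], dvd_add d1 d2⟩
  intro ρ hρ
  by_cases hle : ν ≤ ρ
  swap
  · exact ⟨0, by simp [binom_eq_zero hle], dvd_zero _⟩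
  have hcc : cc ρ ≠ 0 := by
    intro h0
    rw [MvPolynomial.mem_support_iff, coeff_GG hJ h, h0] at hρ
    simp at hρ
  have hw : ((c : ℤ) * z ^ n) ≠ 0 := by
    have := hs.hz; have := hs.hc; positivity
  obtain ⟨T, hT⟩ := aeval_int_D (h.deg ρ) (-((a : ℤ) * x ^ n)) _ hw
  push_cast at hT
  obtain ⟨r0, h0⟩ : ∃ r, ρ 0 = ν 0 + r := Nat.exists_eq_add_of_le (hle 0)
  obtain ⟨r1, h1⟩ : ∃ r, ρ 1 = ν 1 + r := Nat.exists_eq_add_of_le (hle 1)
  have key : ∀ i, i < n * (m + 4) → ∃ q A s t, al J n i = A ∧ A + q = m + 3 ∧ i = n * q + s ∧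
      s + t = n := by
    intro i hi
    have h2 : i / n < m + 4 := Nat.div_lt_of_lt_mul hi
    have h3 : i % n < n := Nat.mod_lt _ hn
    exact ⟨i / n, _, i % n, n - i % n, rfl, by rw [al, hm]; omega, (Nat.div_add_mod i n).symm,
      by omega⟩
  obtain ⟨q0, A0, s0, t0, a0, b0, c0, d0⟩ := key (ρ 0) (hm ▸ h.supp ρ hcc 0)
  obtain ⟨q1, A1, s1, t1, a1, b1, c1, d1⟩ := key (ρ 1) (hm ▸ h.supp ρ hcc 1)
  have f0 : n * A0 + n * q0 = n * m + 3 * n := by rw [← mul_add, b0]; ring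
  have f1 : n * A1 + n * q1 = n * m + 3 * n := by rw [← mul_add, b1]; ring
  have g1 : n * (200 * J ^ 2 - 1) = n * m + 3 * n := by
    rw [hm, show m + 4 - 1 = m + 3 by omega]; ring
  have g2 : n * (400 * J ^ 2 - 2) = 2 * (n * m) + 6 * n := by
    rw [hm2, show 2 * m + 8 - 2 = 2 * m + 6 by omega]; ring
  have g3 : n * (400 * J ^ 2) = 2 * (n * m) + 8 * n := by rw [hm2]; ring
  refine ⟨binom ρ ν * T * (-a) ^ A1 * b ^ A0 * c ^ (q0 + q1) *
    (x ^ (n * A1 + r1) * y ^ (n * A0 + r0) * z ^ (n * q0 + n * q1 + (n * A0 + n * A1 + t0 + t1))),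
    ?_, Dvd.dvd.mul_left ?_ _⟩
  · have e1 : n * (400 * J ^ 2) - ν 0 - ν 1 = r0 + r1 + (n * A0 + n * A1 + t0 + t1) := by omega
    have e2 : 400 * J ^ 2 + 6 = A1 + A0 + 8 + (q0 + q1) := by omega
    rw [coeff_GG hJ h, a0, a1, hu1, e1, e2, h0, h1, Nat.add_sub_cancel_left,
      Nat.add_sub_cancel_left]
    push_cast
    rw [hT]
    simp only [pt, uu, Matrix.cons_val_zero, Matrix.cons_val_one, neg_div]
    generalize Polynomial.aeval (-((a : ℚ) * x ^ n / (c * z ^ n))) (cc ρ) = V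
    simp only [neg_pow ((a : ℚ) * x ^ n / (c * z ^ n)), neg_pow (a : ℚ), div_pow, mul_pow, pow_add,
      pow_mul]
    field_simp
  · refine mul_dvd_mul (mul_dvd_mul ?_ ?_) ?_ <;> refine pow_dvd_pow _ ?_ <;> omega

end Pool.Agent.Lib.MP_4ffbf9_nt.SP
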