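import Mathlib
import Pool.Agent.Shared.Subspace.AuxPoly
import Pool.Agent.Shared.Subspace.Grid
import Pool.Agent.Lib.MP_4ffbf9_nt.SP.Defs

set_option autoImplicit false

namespace Pool.Agent.Lib.MP_4ffbf9_nt.SP

open MvPolynomial Pool.Agent.Subspace

/-- The exponent vector `(i, j)`. -/
noncomputable def ex2 (i j : ℕ) : Fin 2 →₀ ℕ := Finsupp.equivFunOnFinite.symm ![i, j]

@[simp] theorem ex2_zero (i j : ℕ) : ex2 i j 0 = i := rfl

@[simp] theorem ex2_one (i j : ℕ) : ex2 i j 1 = j := rfl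

theorem ex2_eta (ν : Fin 2 →₀ ℕ) : ex2 (ν 0) (ν 1) = ν := by
  ext i; fin_cases i <;> rfl

theorem abs_coeff_up (a b e l : ℕ) :
    |(((Polynomial.X ^ a * (Polynomial.X + 1) ^ b * Polynomial.X ^ e : Polynomial ℤ).coeff l : ℤ) : ℝ)|
      ≤ 2 ^ b := by
  rw [mul_right_comm, ← pow_add, Polynomial.coeff_X_pow_mul']
  split_ifs
  · rw [Polynomial.coeff_X_add_one_pow]
    push_cast
    rw [abs_of_nonneg (by positivity)]
    exact_mod_cast Nat.choose_le_two_pow b _
  · simp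

theorem abs_coeff_shift_monomial (μ ν : Fin 2 →₀ ℕ) (a : ℤ) :
    |((coeff μ (shift (fun _ => (1 : ℤ)) (monomial ν a)) : ℤ) : ℝ)| ≤ 2 ^ (ν 0 + ν 1) * |(a : ℝ)| := by
  rw [coeff_shift, hasse_monomial, eval_monomial]
  simp only [one_pow, Finsupp.prod_fun_one, mul_one]
  push_cast
  rw [abs_mul, abs_of_nonneg (by positivity)]
  refine mul_le_mul_of_nonneg_right ?_ (abs_nonneg _)
  have := binom_le ν μ
  rw [Fin.sum_univ_two] at this
  exact_mod_cast this

/-- Step 1 (Siegel). -/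
theorem aux_exists (J : ℕ) (hJ : 1 ≤ J) : ∃ K : ℝ, 1 ≤ K ∧ ∀ n : ℕ, 1 ≤ n →
    ∃ (P : Fin (400 * J ^ 2 + 7) → R2) (cc : (Fin 2 →₀ ℕ) → Polynomial ℤ), Aux J n K P cc := by
  classical
  obtain ⟨m, hm⟩ : ∃ m, m = 200 * J ^ 2 := ⟨_, rfl⟩
  have hm1 : 200 ≤ m := by rw [hm]; nlinarith
  refine ⟨2 ^ (8 * m + 8), one_le_pow₀ (by norm_num), fun n hn => ?_⟩
  obtain ⟨D, hD⟩ : ∃ D, D = n * m := ⟨_, rfl⟩
  have hmD : m ≤ D := by rw [hD]; exact Nat.le_mul_of_pos_left _ hn
  let up : Fin D × Fin D × Fin 9 → Polynomial ℤ := fun b =>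
    Polynomial.X ^ al J n b.2.1 * (Polynomial.X + 1) ^ al J n b.1 * Polynomial.X ^ (b.2.2 : ℕ)
  have hup : ∀ b l, |(((up b).coeff l : ℤ) : ℝ)| ≤ 2 ^ D := fun b l =>
    (abs_coeff_up _ _ _ _).trans (pow_le_pow_right₀ (by norm_num)
      (((Nat.sub_le _ _).trans (Nat.sub_le _ _)).trans (hm ▸ hmD)))
  let A : Matrix (Fin (400 * J ^ 2 + 7) × Fin (20 * J * n) × Fin (20 * J * n))
      (Fin D × Fin D × Fin 9) ℤ := fun e b =>
    coeff (ex2 e.2.1 e.2.2) (shift (fun _ => (1 : ℤ)) (monomial (ex2 b.1 b.2.1) ((up b).coeff e.1)))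
  have hcard : Fintype.card (Fin D × Fin D × Fin 9) = 9 * D ^ 2 := by simp; ring
  have hD2 : ((9 * D ^ 2 : ℕ) : ℝ) ≤ 2 ^ (2 * D + 4) := by
    have h1 : D ≤ 2 ^ D := Nat.lt_two_pow_self.le
    have h2 : 9 * D ^ 2 ≤ 2 ^ (2 * D + 4) := by
      calc 9 * D ^ 2 ≤ 16 * (2 ^ D) ^ 2 := Nat.mul_le_mul (by norm_num) (Nat.pow_le_pow_left h1 2)
        _ = 2 ^ (2 * D + 4) := by ring
    exact_mod_cast h2
  obtain ⟨p, hp0, hp, hpB⟩ := siegel_half A (B := 2 ^ (3 * D))
    (by
      rw [hcard]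
      simp only [Fintype.card_prod, Fintype.card_fin]
      have : (400 * J ^ 2 + 7) * (20 * J * n * (20 * J * n)) = (2 * m + 7) * (2 * m) * n ^ 2 := by
        rw [hm]; ring
      rw [this, hD]
      calc 2 * ((2 * m + 7) * (2 * m) * n ^ 2) = (8 * m + 28) * m * n ^ 2 := by ring
        _ ≤ (9 * m) * m * n ^ 2 := by gcongr; omega
        _ = 9 * (n * m) ^ 2 := by ring)
    (by rw [hcard]; have : 0 < D := by omega
        positivity) (one_le_pow₀ (by norm_num))
    (fun e b => (abs_coeff_shift_monomial _ _ _).trans (by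
      calc (2 : ℝ) ^ (ex2 b.1 b.2.1 0 + ex2 b.1 b.2.1 1) * |(((up b).coeff e.1 : ℤ) : ℝ)|
          ≤ 2 ^ (2 * D) * 2 ^ D := by
            refine mul_le_mul (pow_le_pow_right₀ (by norm_num) ?_) (hup _ _) (abs_nonneg _)
              (by positivity)
            have := b.1.2
            have := b.2.1.2
            simp only [ex2_zero, ex2_one]; omega
        _ = 2 ^ (3 * D) := by ring))
  have hpB' : ∀ b, |(p b : ℝ)| ≤ 2 ^ (5 * D + 4) := fun b => (hpB b).trans (by
    rw [hcard]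
    calc _ ≤ (2 : ℝ) ^ (2 * D + 4) * 2 ^ (3 * D) := by gcongr
      _ = _ := by ring)
  have hK : (2 : ℝ) ^ (8 * D + 8) ≤ (2 ^ (8 * m + 8)) ^ n := by
    rw [← pow_mul]
    refine pow_le_pow_right₀ (by norm_num) ?_
    rw [hD]; nlinarith
  let cc : (Fin 2 →₀ ℕ) → Polynomial ℤ := fun ν =>
    if h : ν 0 < D ∧ ν 1 < D then
      ∑ e : Fin 9, Polynomial.C (p (⟨ν 0, h.1⟩, ⟨ν 1, h.2⟩, e)) * Polynomial.X ^ (e : ℕ) else 0
  have hcc : ∀ (i j : Fin D) (e : Fin 9), (cc (ex2 i j)).coeff e = p (i, j, e) := by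
    intro i j e
    simp only [cc, ex2_zero, ex2_one, Fin.is_lt, and_self, dif_pos, Fin.eta,
      Polynomial.finsetSum_coeff, Polynomial.coeff_C_mul_X_pow]
    rw [Finset.sum_eq_single e (fun e' _ h => if_neg fun h' => h (Fin.ext h'.symm)) (by simp)]
    simp
  have hdeg : ∀ ν, (cc ν).natDegree ≤ 8 := by
    intro ν
    simp only [cc]
    split_ifs
    · refine Polynomial.natDegree_sum_le_of_forall_le _ _ fun e _ =>
        (Polynomial.natDegree_C_mul_X_pow_le _ _).trans (by have := e.2; omega)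
    · simp
  refine ⟨fun l => ∑ b, C (p b) * monomial (ex2 b.1 b.2.1) ((up b).coeff l), cc,
    ?_, ?_, hdeg, ?_, ?_, ?_, ?_⟩
  · obtain ⟨b, hb⟩ := Function.ne_iff.mp hp0
    refine ⟨ex2 b.1 b.2.1, fun h => hb ?_⟩
    have := hcc b.1 b.2.1 b.2.2
    rw [h] at this
    simpa using this.symm
  · intro ν hν i
    by_cases h : ν 0 < D ∧ ν 1 < D
    · rw [← hm, ← hD]; fin_cases i
      · exact h.1
      · exact h.2
    · exact absurd (dif_neg h) hν
  · intro ν e
    refine le_trans ?_ hK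
    by_cases h : ν 0 < D ∧ ν 1 < D
    · by_cases he : e < 9
      · have := hcc ⟨ν 0, h.1⟩ ⟨ν 1, h.2⟩ ⟨e, he⟩
        simp only [ex2_eta] at this
        rw [this]
        exact (hpB' _).trans (pow_le_pow_right₀ (by norm_num) (by omega))
      · rw [Polynomial.coeff_eq_zero_of_natDegree_lt (by have := hdeg ν; omega)]
        simp
    · have : cc ν = 0 := dif_neg h
      rw [this]; simp
  · intro ν l
    simp only [coeff_sum, coeff_C_mul, coeff_monomial]
    by_cases h : ν 0 < D ∧ ν 1 < D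
    · have hc : cc ν = _ := dif_pos h
      rw [hc, Finset.mul_sum, Polynomial.finsetSum_coeff, Fintype.sum_prod_type,
        Finset.sum_eq_single ⟨ν 0, h.1⟩ _ (by simp), Fintype.sum_prod_type,
        Finset.sum_eq_single ⟨ν 1, h.2⟩ _ (by simp)]
      · refine Finset.sum_congr rfl fun e _ => ?_
        simp only [ex2_eta, if_true, up]
        rw [mul_left_comm, Polynomial.coeff_C_mul]
      · intro j _ hj
        refine Finset.sum_eq_zero fun e _ => ?_
        rw [if_neg, mul_zero]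
        intro h'
        exact hj (Fin.ext (congrArg (fun t => t 1) h'))
      · intro i _ hi
        refine Finset.sum_eq_zero fun e _ => ?_
        rw [if_neg, mul_zero]
        intro h'
        exact hi (Fin.ext (congrArg (fun t => t 0) h'))
    · have hc : cc ν = 0 := dif_neg h
      rw [hc, mul_zero, Polynomial.coeff_zero]
      refine Finset.sum_eq_zero fun b _ => ?_
      rw [if_neg, mul_zero]
      intro h'
      exact h (by rw [← h']; exact ⟨b.1.2, b.2.1.2⟩)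
  · intro l
    refine le_trans ?_ hK
    refine (l1_sum_le _ _).trans ?_
    calc ∑ b, l1 (C (p b) * monomial (ex2 b.1 b.2.1) ((up b).coeff l))
        ≤ ∑ _b : Fin D × Fin D × Fin 9, (2 : ℝ) ^ (5 * D + 4) * 2 ^ D := by
          refine Finset.sum_le_sum fun b _ => (l1_mul_le _ _).trans ?_
          rw [l1_C, l1_monomial, Int.norm_eq_abs, Int.norm_eq_abs]
          exact mul_le_mul (hpB' b) (hup _ _) (abs_nonneg _) (by positivity)
      _ ≤ 2 ^ (2 * D + 4) * (2 ^ (5 * D + 4) * 2 ^ D) := by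
          rw [Finset.sum_const, Finset.card_univ, hcard, nsmul_eq_mul]; gcongr
      _ = _ := by ring
  · intro l ν hν
    have := congrFun hp (l, ⟨ν 0, by omega⟩, ⟨ν 1, by omega⟩)
    simp only [Matrix.mulVec, dotProduct, A, ex2_eta, Pi.zero_apply] at this
    rw [map_sum, coeff_sum, ← this]
    refine Finset.sum_congr rfl fun b _ => ?_
    rw [map_mul, ← algebraMap_eq, AlgHom.commutes, algebraMap_eq, coeff_C_mul, mul_comm]

end Pool.Agent.Lib.MP_4ffbf9_nt.SP
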