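import Mathlib
import Pool.Agent.Lib.MP_4ffbf9_nt.SP.Defs
import Pool.Agent.Lib.MP_4ffbf9_nt.ZR.Core

set_option autoImplicit false

namespace Pool.Agent.Lib.MP_4ffbf9_nt.SP

open MvPolynomial Pool.Agent.Subspace

/-- The zero lemma. -/
theorem lemmaZ (e : ℕ) (K : ℝ) : ∃ h0 n0 : ℕ, ∀ (n a b c x y z N μ : ℕ) (V : R2),
    Sol n a b c x y z → n0 ≤ n → h0 ≤ z → V ≠ 0 → (∀ i, DegLe i N V) → l1 V ≤ K ^ N →
    1 ≤ μ → N ≤ e * μ → ¬ Van (pt x y z) μ (toQ V) := by
  have he : (0 : ℝ) < ((e + 1 : ℕ) : ℝ) := by positivity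
  obtain ⟨σ, hσ, H⟩ := roth_lemma 2 (θ := 1 / (32 * ((e + 1 : ℕ) : ℝ))) (by positivity)
  set E : ℝ := ((e + 1 : ℕ) : ℝ) with hE
  obtain ⟨ε, hε0, hε1, hε2⟩ : ∃ ε : ℝ, 0 < ε ∧ 36 * ε ≤ σ ∧ 416 * E * ε ≤ 1 := by
    refine ⟨min (σ / 36) (1 / (416 * E)), by positivity,
      by linarith [min_le_left (σ / 36) (1 / (416 * E))], ?_⟩
    calc _ ≤ 416 * E * (1 / (416 * E)) := by gcongr; exact min_le_right _ _
      _ = 1 := by field_simp
  set K' : ℝ := max |K| 1 with hK'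
  have hK1 : 1 ≤ K' := le_max_right _ _
  have hlK : 0 ≤ Real.log K' := Real.log_nonneg hK1
  obtain ⟨n0, hn0⟩ := exists_nat_ge (1 / σ)
  obtain ⟨h0, hh0⟩ := exists_nat_ge
    (Real.exp (404 * E / σ + 3233 * E ^ 2 + (2 + E * Real.log K') / ε))
  refine ⟨h0, n0, fun n a b c x y z N μ V S hn hz hV hd hl hμ hN hI => ?_⟩
  have hxr : (0 : ℝ) < x := by exact_mod_cast S.hx
  have hyr : (0 : ℝ) < y := by exact_mod_cast S.hy
  have hzr : (0 : ℝ) < z := by exact_mod_cast S.hz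
  set L := Real.log (2 * z) with hL
  have hL1 : 404 * E / σ + 3233 * E ^ 2 + (2 + E * Real.log K') / ε ≤ L := by
    rw [hL, Real.le_log_iff_exp_le (by positivity)]
    have : (h0 : ℝ) ≤ z := by exact_mod_cast hz
    linarith
  have p1 : 0 ≤ 404 * E / σ := by positivity
  have p2 : 0 ≤ 3233 * E ^ 2 := by positivity
  have p3 : 0 ≤ (2 + E * Real.log K') / ε := by positivity
  have q1 : 404 * E ≤ σ * L := by
    rw [mul_comm σ, ← div_le_iff₀ hσ]; linarith
  have q3 : 2 + E * Real.log K' ≤ ε * L := by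
    rw [mul_comm ε, ← div_le_iff₀ hε0]; linarith
  have p4 : 0 ≤ E * Real.log K' := by positivity
  have l2 : Real.log 2 ≤ 1 := by linarith [Real.log_two_lt_d9]
  have co : ∀ t : ℕ, 0 < t → t ≤ 2 ^ n → Real.log t ≤ ε * n * L := by
    intro t ht h
    have h1 : Real.log t ≤ Real.log (2 ^ n) :=
      Real.log_le_log (by exact_mod_cast ht) (by exact_mod_cast h)
    rw [Real.log_pow] at h1
    have h2 : (n : ℝ) * Real.log 2 ≤ n * (ε * L) := by gcongr; linarith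
    linarith
  have ro : ∀ t : ℕ, 0 < t → t ≤ 2 * z → z ≤ 2 * t →
      (1 - ε) * L ≤ Real.log t ∧ Real.log t ≤ L := by
    intro t ht h1 h2
    have htr : (0 : ℝ) < t := by exact_mod_cast ht
    refine ⟨?_, Real.log_le_log htr (by exact_mod_cast h1)⟩
    have h3 : L ≤ Real.log (2 * (2 * t)) := by
      refine Real.log_le_log (by positivity) ?_
      have : (z : ℝ) ≤ 2 * t := by exact_mod_cast h2
      linarith
    rw [Real.log_mul (by norm_num) (by positivity), Real.log_mul (by norm_num) htr.ne'] at h3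
    linarith
  have rx := ro x S.hx S.x_le S.le_x
  have ry := ro y S.hy S.y_le S.le_y
  have rz := ro z S.hz (by omega) (by omega)
  refine ZR.core (e := e + 1) (Nat.succ_pos e) (σ := σ) (ε := ε) (L := L) H hσ hε0.le hε1 hε2 q1
    (by linarith) (n := n) (μ := μ) (a := a) (b := b) (c := -c) (V := V) ?_ hμ S.hx S.hy S.hz
    S.cxy S.cxz S.cyz (by exact_mod_cast S.hb.ne') (by exact_mod_cast neg_ne_zero.mpr (by
      exact_mod_cast S.hc.ne' : (c : ℤ) ≠ 0)) ?_ (by simpa using co b S.hb S.b_le)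
    (by simpa using co c S.hc S.c_le) rx.1 rx.2 ry.1 ry.2 rz.1 rz.2 hV
    (ZR.degLe_mono (hd 1) (hN.trans (Nat.mul_le_mul_right _ (Nat.le_succ e)))) ?_ hI
  · rw [div_le_iff₀ hσ] at hn0
    have : (n0 : ℝ) ≤ n := by exact_mod_cast hn
    nlinarith
  · have : ((a * x ^ n + b * y ^ n : ℕ) : ℤ) = ((c * z ^ n : ℕ) : ℤ) := by rw [S.eq]
    push_cast at this
    linarith
  · have h1 : l1 V ≤ K' ^ ((e + 1) * μ) := by
      refine hl.trans ((le_abs_self _).trans ?_)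
      rw [abs_pow]
      exact (pow_le_pow_left₀ (abs_nonneg _) (le_max_left _ _) _).trans
        (pow_le_pow_right₀ hK1 (hN.trans (Nat.mul_le_mul_right _ (Nat.le_succ e))))
    have h2 := Real.log_le_log (lt_of_lt_of_le one_pos (one_le_l1 hV)) h1
    rw [Real.log_pow, Nat.cast_mul, ← hE] at h2
    have h3 : (μ : ℝ) * (E * Real.log K') ≤ μ * (ε * L) :=
      mul_le_mul_of_nonneg_left (by linarith) (Nat.cast_nonneg _)
    linarith

end Pool.Agent.Lib.MP_4ffbf9_nt.SP
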