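import Mathlib
import Pool.Agent.Lib.MP_4ffbf9_nt.SP.AuxS
import Pool.Agent.Lib.MP_4ffbf9_nt.SP.AuxD
import Pool.Agent.Lib.MP_4ffbf9_nt.SP.AuxA
import Pool.Agent.Lib.MP_4ffbf9_nt.SP.Wr
import Pool.Agent.Lib.MP_4ffbf9_nt.SP.Zero

set_option autoImplicit false

namespace Pool.Agent.Lib.MP_4ffbf9_nt.SP

open MvPolynomial Pool.Agent.Subspace

theorem Near.half {J x z : ℕ} (hJ : 1 ≤ J) (h : Near J x z) (hz : 2 ^ J ≤ z) :
    z ≤ 2 * x ∧ x ≤ 2 * z := by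
  have hz' : (2 : ℝ) ^ J ≤ z := by exact_mod_cast hz
  have hz0 : (0 : ℝ) < z := lt_of_lt_of_le (by positivity) hz'
  have h1 : |(x : ℝ) / z - 1| ≤ 1 / 2 := by
    refine le_of_pow_le_pow_left₀ (n := J) (by omega) (by norm_num) ?_
    rw [one_div, inv_pow, ← one_div, le_div_iff₀ (by positivity)]
    exact (mul_le_mul_of_nonneg_left hz' (by positivity)).trans h
  obtain ⟨h2, h3⟩ := abs_le.1 h1
  have h4 : 1 / 2 ≤ (x : ℝ) / z := by linarith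
  have h5 : (x : ℝ) / z ≤ 2 := by linarith
  rw [le_div_iff₀ hz0] at h4
  rw [div_le_iff₀ hz0] at h5
  constructor
  · have : (z : ℝ) ≤ 2 * x := by linarith
    exact_mod_cast this
  · exact_mod_cast h5

/-- Step 3. -/
theorem GG_van (J : ℕ) (hJ : 1 ≤ J) (K : ℝ) (hK : 1 ≤ K) : ∃ h0 : ℕ,
    ∀ (n a b c x y z : ℕ) (P : Fin (400 * J ^ 2 + 7) → R2) (cc : (Fin 2 →₀ ℕ) → Polynomial ℤ),
      1 ≤ n → Aux J n K P cc → Sol n a b c x y z → h0 ≤ z → Near J x z → Near J y z →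
      Van (pt x y z) (3 * n) (GG P (uu n a c x z)) := by
  obtain ⟨m, hm⟩ : ∃ m, J ^ 2 = m + 1 := ⟨J ^ 2 - 1, by have := Nat.one_le_pow 2 J hJ; omega⟩
  set T : ℝ := 2 ^ (800 * m + 804) * ((400 * J ^ 2 + 7) * (16 ^ (200 * J ^ 2) * K)) with hT
  obtain ⟨h0, hh⟩ := exists_nat_gt T
  refine ⟨h0, fun n a b c x y z P cc hn hA hs hz hx hy ν hν => ?_⟩
  by_contra hne
  obtain ⟨N, hN, hd⟩ := GG_dvd hJ hn hA hs ν hν.le
  have hsm := GG_small hJ hn hK hA hs hx hy ν hν.le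
  set t : ℚ := coeff ν (shift (pt x y z) (GG P (uu n a c x z))) with ht
  have hz0 : (0 : ℝ) < z := by exact_mod_cast hs.hz
  have hz1 : (1 : ℝ) ≤ z := by exact_mod_cast hs.hz
  have hN0 : N ≠ 0 := by
    have h1 : (c : ℚ) ≠ 0 := by exact_mod_cast hs.hc.ne'
    have h2 : (z : ℚ) ≠ 0 := by exact_mod_cast hs.hz.ne'
    intro h
    rw [h, Int.cast_zero] at hN
    exact absurd hN.symm (by positivity)
  have h1 : (x : ℝ) ^ (n * (200 * J ^ 2 - 1) - ν 1) * (y : ℝ) ^ (n * (200 * J ^ 2 - 1) - ν 0) *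
      (z : ℝ) ^ (n * (400 * J ^ 2 - 2)) ≤ |(N : ℝ)| := by
    exact_mod_cast Int.le_of_dvd (abs_pos.2 hN0) ((dvd_abs _ _).2 hd)
  have h2 : |(N : ℝ)| = ((c : ℝ) * z ^ n) ^ (400 * J ^ 2 + 6) *
      (z : ℝ) ^ (n * (400 * J ^ 2) - ν 0 - ν 1) * |(t : ℝ)| := by
    have : (N : ℝ) = ((c : ℝ) * z ^ n) ^ (400 * J ^ 2 + 6) *
      (z : ℝ) ^ (n * (400 * J ^ 2) - ν 0 - ν 1) * (t : ℝ) := by exact_mod_cast hN
    rw [this, abs_mul, abs_of_nonneg (by positivity)]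
  have e1 : 200 * J ^ 2 - 1 = 200 * m + 199 := by omega
  have e0 : n * 3 ≤ n * (200 * J ^ 2 - 1) := Nat.mul_le_mul_left _ (by omega)
  obtain ⟨i, hi⟩ : ∃ i, n * (200 * J ^ 2 - 1) = ν 1 + i := Nat.exists_eq_add_of_le (by omega)
  obtain ⟨j, hj⟩ : ∃ j, n * (200 * J ^ 2 - 1) = ν 0 + j := Nat.exists_eq_add_of_le (by omega)
  have e2 : 400 * J ^ 2 - 2 = 400 * m + 398 := by omega
  have e3 : n * (400 * J ^ 2) - ν 0 - ν 1 = i + j + 2 * n := by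
    rw [e1] at hi hj
    have : n * (400 * J ^ 2) = ν 0 + ν 1 + (i + j + 2 * n) := by rw [hm]; nlinarith
    omega
  have e4 : i + j ≤ n * (400 * m + 398) := by rw [e1] at hi hj; nlinarith
  rw [show n * (200 * J ^ 2 - 1) - ν 1 = i by omega, show n * (200 * J ^ 2 - 1) - ν 0 = j by omega,
    e2, h2, e3, show 400 * J ^ 2 + 6 = 400 * m + 406 by omega] at h1
  have hx2 : (z : ℝ) ≤ 2 * x := by exact_mod_cast hs.le_x
  have hy2 : (z : ℝ) ≤ 2 * y := by exact_mod_cast hs.le_y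
  have hc2 : (c : ℝ) ≤ 2 ^ n := by exact_mod_cast hs.c_le
  have h3 : (z : ℝ) ^ (i + j) ≤ 2 ^ (n * (400 * m + 398)) * (x ^ i * y ^ j) := by
    calc (z : ℝ) ^ (i + j) = z ^ i * z ^ j := pow_add _ _ _
      _ ≤ (2 * x) ^ i * (2 * y) ^ j := by gcongr
      _ = 2 ^ (i + j) * (x ^ i * y ^ j) := by ring
      _ ≤ _ := by gcongr; norm_num
  have h4 : (400 * (J : ℝ) ^ 2 + 7) ≤ (400 * (J : ℝ) ^ 2 + 7) ^ n :=
    le_self_pow₀ (by nlinarith [sq_nonneg (J : ℝ)]) (by omega)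
  have h5 : (z : ℝ) ^ (i + j + n * (400 * m + 408)) * z ^ (5 * n) ≤
      (z : ℝ) ^ (i + j + n * (400 * m + 408)) * T ^ n := by
    calc _ = (z : ℝ) ^ (i + j) * z ^ (n * (400 * m + 398)) * z ^ (15 * n) := by ring
      _ ≤ 2 ^ (n * (400 * m + 398)) * (x ^ i * y ^ j * z ^ (n * (400 * m + 398))) * z ^ (15 * n) := by
        rw [← mul_assoc]; gcongr
      _ ≤ 2 ^ (n * (400 * m + 398)) * (((2 : ℝ) ^ n * z ^ n) ^ (400 * m + 406) *
          (z : ℝ) ^ (i + j + 2 * n) * |(t : ℝ)|) * z ^ (15 * n) := by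
        gcongr _ * ?_ * _
        refine h1.trans ?_
        gcongr
      _ = (z : ℝ) ^ (i + j + n * (400 * m + 408)) * ((2 ^ (800 * m + 804)) ^ n *
          (|(t : ℝ)| * z ^ (15 * n))) := by generalize (2 : ℝ) = w; ring
      _ ≤ (z : ℝ) ^ (i + j + n * (400 * m + 408)) * ((2 ^ (800 * m + 804)) ^ n *
          ((400 * (J : ℝ) ^ 2 + 7) ^ n * (16 ^ (200 * J ^ 2) * K) ^ n)) := by
        gcongr _ * (_ * ?_)
        refine hsm.trans ?_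
        gcongr
      _ = _ := by simp only [hT, mul_pow]
  have h6 := le_of_mul_le_mul_left h5 (by positivity)
  have h7 : T ^ n < (z : ℝ) ^ n :=
    pow_lt_pow_left₀ (hh.trans_le (by exact_mod_cast hz)) (by positivity) (by omega)
  exact absurd (h6.trans_lt h7) (not_lt.2 (pow_le_pow_right₀ hz1 (by omega)))

/-- The window theorem. -/
theorem window (J : ℕ) (hJ : 1 ≤ J) : ∃ h0 n0 : ℕ, ∀ n a b c x y z : ℕ, n0 ≤ n → h0 ≤ z →
    0 < a → 0 < b → 0 < c → a ≤ 2 ^ n → b ≤ 2 ^ n → c ≤ 2 ^ n →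
    Nat.Coprime x y → Nat.Coprime x z → Nat.Coprime y z → Near J x z → Near J y z →
    a * x ^ n + b * y ^ n ≠ c * z ^ n := by
  obtain ⟨K, hK, hA⟩ := aux_exists J hJ
  obtain ⟨h1, hV⟩ := GG_van J hJ K hK
  set r := 400 * J ^ 2 + 7 with hr
  obtain ⟨h2, n2, hZ⟩ := lemmaZ (r * (200 * J ^ 2)) (r.factorial * (4 * K))
  obtain ⟨h3, hh3⟩ := exists_nat_gt (2 * K)
  refine ⟨h1 + h2 + h3 + 2 ^ J, n2 + r, fun n a b c x y z hn hz ha hb hc a2 b2 c2 cxy cxz cyz hx hy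
    heq => ?_⟩
  have hJ2 : 1 ≤ J ^ 2 := Nat.one_le_pow 2 J hJ
  have hp : 1 ≤ 2 ^ J := Nat.one_le_two_pow
  obtain ⟨x1, x2⟩ := hx.half hJ (by omega)
  obtain ⟨y1, y2⟩ := hy.half hJ (by omega)
  have hs : Sol n a b c x y z := ⟨heq, ha, hb, hc, by omega, by omega, by omega, a2, b2, c2, cxy,
    cxz, cyz, x2, x1, y2, y1⟩
  have hn1 : 1 ≤ n := by omega
  obtain ⟨P, cc, h⟩ := hA n hn1
  obtain ⟨V, hV0, hVd, hVl, hVv⟩ := wronsk (one_le_pow₀ hK) P _ _ h.degLe h.l1_le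
    (GG_ne hJ hn1 hK h hs (hh3.trans_le (by exact_mod_cast (by omega : h3 ≤ z))))
    (hV n a b c x y z P cc hn1 h hs (by omega) hx hy)
  refine hZ n a b c x y z _ n V hs (by omega) (by omega) hV0 hVd (hVl.trans ?_) hn1
    (le_of_eq (by ring)) (hVv.mono (by omega))
  have hf : (1 : ℝ) ≤ r.factorial := by exact_mod_cast r.factorial_pos
  have hD : n ≤ n * (200 * J ^ 2) := Nat.le_mul_of_pos_right _ (by omega)
  rw [mul_pow (r.factorial : ℝ), mul_comm r, pow_mul (4 * K), mul_pow 4 K]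
  gcongr
  exact le_self_pow₀ hf (by positivity)

end Pool.Agent.Lib.MP_4ffbf9_nt.SP
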