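import Mathlib
import Pool.Agent.Lib.MP_4ffbf9_nt.SP.Win
import Pool.Agent.Lib.MP_4ffbf9_nt.SP.Baker

set_option autoImplicit false

namespace Pool.Agent.Lib.MP_4ffbf9_nt.SP

open Filter

theorem pow_dvd_bound {g l n k : ℕ} {Q : ℝ} (hg : 0 < g) (hk : 0 < k) (hl : l.Prime)
    (hQ : (g : ℝ) / (∏ p ∈ g.primeFactors, (p : ℝ)) ≤ Q) (h : l ^ (n + 1) ∣ k * g) :
    (n : ℝ) < k * Q := by
  obtain ⟨s, hs⟩ := Nat.prod_primeFactors_dvd g
  set ρ := ∏ p ∈ g.primeFactors, p with hρ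
  have hρ0 : 0 < ρ := Finset.prod_pos fun p hp => (Nat.prime_of_mem_primeFactors hp).pos
  have hs0 : 0 < s := Nat.pos_of_mul_pos_left (hs ▸ hg)
  have hsQ : (s : ℝ) ≤ Q := by
    rw [← Nat.cast_prod, ← hρ] at hQ
    have h0 : (ρ : ℝ) ≠ 0 := by exact_mod_cast hρ0.ne'
    have : (g : ℝ) = ρ * s := by exact_mod_cast hs
    rwa [this, mul_div_cancel_left₀ _ h0] at hQ
  have hsq : Squarefree ρ := by
    refine Finset.squarefree_prod_of_pairwise_isCoprime (fun p hp q hq hpq => ?_)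
      fun p hp => (Nat.prime_of_mem_primeFactors hp).squarefree
    exact Nat.coprime_iff_isRelPrime.1 ((Nat.coprime_primes (Nat.prime_of_mem_primeFactors hp)
      (Nat.prime_of_mem_primeFactors hq)).2 hpq)
  have hd : l ^ n ∣ k * s := by
    rw [hs, mul_left_comm] at h
    exact hsq.pow_dvd_of_squarefree_of_pow_succ_dvd_mul_right hl.prime h
  have h1 : n < k * s :=
    (Nat.lt_pow_self hl.one_lt).trans_le (Nat.le_of_dvd (Nat.mul_pos hk hs0) hd)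
  calc (n : ℝ) < k * s := by exact_mod_cast h1
    _ ≤ k * Q := by gcongr

/-- For large `n` the gcd condition makes the roots pairwise coprime. -/
theorem coprime_roots (A B C : ℕ) (Q : ℝ) (hA : 0 < A) (hB : 0 < B) :
    ∃ n1 : ℕ, ∀ n a b c x y z : ℕ, n1 ≤ n → 0 < a → 0 < x →
      A * (a * x ^ n) + B * (b * y ^ n) = C * (c * z ^ n) →
      ((Nat.gcd (a * x ^ n) (b * y ^ n) : ℝ) /
        (∏ l ∈ (Nat.gcd (a * x ^ n) (b * y ^ n)).primeFactors, (l : ℝ)) ≤ Q) →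
      Nat.Coprime x y ∧ Nat.Coprime x z ∧ Nat.Coprime y z := by
  obtain ⟨n1, h1⟩ := exists_nat_gt (((A * B : ℕ) : ℝ) * Q)
  refine ⟨n1 + 1, fun n a b c x y z hn ha hx heq hQ => ?_⟩
  obtain ⟨n, rfl⟩ : ∃ k, n = k + 1 := ⟨n - 1, by omega⟩
  have hg : 0 < Nat.gcd (a * x ^ (n + 1)) (b * y ^ (n + 1)) :=
    Nat.gcd_pos_of_pos_left _ (by positivity)
  have key : ∀ l : ℕ, l.Prime → l ^ (n + 1) ∣ A * (a * x ^ (n + 1)) →
      l ^ (n + 1) ∣ B * (b * y ^ (n + 1)) → False := fun l hl h2 h3 => by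
    have := pow_dvd_bound hg (Nat.mul_pos hA hB) hl hQ (n := n) (by
      rw [← Nat.gcd_mul_left]
      refine Nat.dvd_gcd ?_ ?_
      · rw [mul_comm A, mul_assoc]; exact h2.mul_left _
      · rw [mul_assoc]; exact h3.mul_left _)
    have h4 : n < n1 := by exact_mod_cast this.trans h1
    omega
  have up : ∀ l u v w : ℕ, l ∣ w → l ^ (n + 1) ∣ u * (v * w ^ (n + 1)) := fun l u v w h =>
    ((pow_dvd_pow_of_dvd h _).mul_left _).mul_left _
  refine ⟨Nat.coprime_of_dvd fun l hl h2 h3 => key l hl (up _ _ _ _ h2) (up _ _ _ _ h3),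
    Nat.coprime_of_dvd fun l hl h2 h3 => key l hl (up _ _ _ _ h2) ?_,
    Nat.coprime_of_dvd fun l hl h2 h3 => key l hl ?_ (up _ _ _ _ h2)⟩
  · exact (Nat.dvd_add_right (up _ _ _ _ h2)).1 (heq ▸ up _ _ _ _ h3)
  · exact (Nat.dvd_add_left (up _ _ _ _ h2)).1 (heq ▸ up _ _ _ _ h3)

theorem near_of {δ : ℝ} {J h x z : ℕ} (hJ : 2 ≤ δ * J) (hh : 2 ^ J ≤ h) (hz : z ≤ h)
    (hz2 : h ≤ 2 * z) (hx : |(x : ℝ) - z| ≤ (h : ℝ) ^ (1 - δ)) : Near J x z := by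
  have h1 : (2 : ℝ) ^ J ≤ h := by exact_mod_cast hh
  have h0 : (0 : ℝ) < h := lt_of_lt_of_le (by positivity) h1
  have hz' : (h : ℝ) ≤ 2 * z := by exact_mod_cast hz2
  have z0 : (0 : ℝ) < z := by linarith
  have h2 : |(x : ℝ) / z - 1| ≤ 2 * (h : ℝ) ^ (-δ) := by
    rw [div_sub_one z0.ne', abs_div, abs_of_pos z0, div_le_iff₀ z0]
    refine hx.trans ?_
    rw [sub_eq_add_neg, Real.rpow_add h0, Real.rpow_one]
    have := Real.rpow_pos_of_pos h0 (-δ)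
    nlinarith
  have h3 : ((h : ℝ) ^ (-δ)) ^ J * (h * h) ≤ 1 := by
    rw [← Real.rpow_natCast, ← Real.rpow_mul h0.le, ← sq, ← Real.rpow_two, ← Real.rpow_add h0]
    exact Real.rpow_le_one_of_one_le_of_nonpos ((one_le_pow₀ one_le_two).trans h1) (by linarith)
  calc |(x : ℝ) / z - 1| ^ J * z ≤ (2 * (h : ℝ) ^ (-δ)) ^ J * h := by gcongr
    _ = ((h : ℝ) ^ (-δ)) ^ J * (2 ^ J * h) := by ring
    _ ≤ ((h : ℝ) ^ (-δ)) ^ J * (h * h) := by gcongr
    _ ≤ 1 := h3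

/-- The main theorem for pairwise coprime roots. -/
theorem spread_lt (δ : ℝ) (hδ : 0 < δ) (hδ1 : δ < 1) : ∃ n0 : ℕ, ∀ n a b c x y z : ℕ, n0 ≤ n →
    0 < a → 0 < b → 0 < c → 0 < x → 0 < y → 0 < z → a * x ^ n + b * y ^ n = c * z ^ n →
    Nat.Coprime x y → Nat.Coprime x z → Nat.Coprime y z → 2 ≤ max x (max y z) →
    (a : ℝ) ≤ Real.exp (2 * (n : ℝ) ^ (1 - δ)) → (b : ℝ) ≤ Real.exp (2 * (n : ℝ) ^ (1 - δ)) →
    (c : ℝ) ≤ Real.exp (2 * (n : ℝ) ^ (1 - δ)) →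
    (n : ℝ) * ((max x (max y z) : ℕ) : ℝ) ^ (1 - 2 * δ) <
      ((max x (max y z) : ℕ) : ℝ) - ((min x (min y z) : ℕ) : ℝ) := by
  obtain ⟨J, hJ, hc⟩ := close δ hδ hδ1
  obtain ⟨h0, n0, hw⟩ := window J hJ
  obtain ⟨n1, hc⟩ := hc h0
  obtain ⟨J', hJ'⟩ := exists_nat_gt (2 / δ)
  have hJ1 : 1 ≤ J' := by
    have : (0 : ℝ) < J' := lt_trans (by positivity) hJ'
    exact_mod_cast this
  rw [div_lt_iff₀' hδ] at hJ'
  obtain ⟨h0', n0', hw'⟩ := window J' hJ1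
  obtain ⟨n2, hn2⟩ := eventually_atTop.1
    (((tendsto_rpow_atTop hδ).comp tendsto_natCast_atTop_atTop).eventually_ge_atTop 4)
  refine ⟨n0 + n1 + n0' + n2 + 2 * h0' + 2 ^ J' + 2, fun n a b c x y z hn ha hb hc' hx hy hz heq
    cxy cxz cyz h2 ea eb ec => ?_⟩
  have hp : 1 ≤ 2 ^ J' := Nat.one_le_two_pow
  by_contra hcon
  rw [not_lt] at hcon
  rcases le_or_gt (((max x (max y z) : ℕ) : ℝ) ^ δ) n with h | h
  · obtain ⟨z0, nx, ny, a2, b2, c2⟩ :=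
      hc n a b c x y z (by omega) ha hb hc' hx hy hz heq cxy cxz cyz h2 h ea eb ec
    exact hw n a b c x y z (by omega) z0 ha hb hc' a2 b2 c2 cxy cxz cyz nx ny heq
  have hxh : x ≤ max x (max y z) := le_max_left _ _
  have hyh : y ≤ max x (max y z) := le_max_of_le_right (le_max_left _ _)
  have hzh : z ≤ max x (max y z) := le_max_of_le_right (le_max_right _ _)
  have hlx : min x (min y z) ≤ x := min_le_left _ _
  have hly : min x (min y z) ≤ y := min_le_of_right_le (min_le_left _ _)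
  have hlz : min x (min y z) ≤ z := min_le_of_right_le (min_le_right _ _)
  generalize max x (max y z) = H at *
  generalize min x (min y z) = L at *
  have H1 : (1 : ℝ) ≤ H := by exact_mod_cast (by omega : 1 ≤ H)
  have n0r : (0 : ℝ) < n := by exact_mod_cast (by omega : 0 < n)
  have hHn : n ≤ H := by
    have := h.le.trans (Real.rpow_le_self_of_one_le H1 hδ1.le)
    exact_mod_cast this
  have hd : (H : ℝ) - L ≤ (H : ℝ) ^ (1 - δ) := by
    refine hcon.trans ?_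
    rw [show 1 - δ = δ + (1 - 2 * δ) by ring, Real.rpow_add (by linarith)]
    gcongr
  have hL : H ≤ 2 * L := by
    have e : (H : ℝ) ^ δ * (H : ℝ) ^ (1 - δ) = H := by
      rw [← Real.rpow_add (by linarith)]; simp
    have n2r : (2 : ℝ) ≤ n := by exact_mod_cast (by omega : 2 ≤ n)
    have := Real.rpow_pos_of_pos (by linarith : (0 : ℝ) < H) (1 - δ)
    have : (H : ℝ) ≤ 2 * L := by nlinarith
    exact_mod_cast this
  have nr : ∀ w : ℕ, w ≤ H → L ≤ w → Near J' w z := fun w h1 h2 => by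
    refine near_of hJ'.le (by omega) hzh (by omega) (le_trans (abs_le.2 ?_) hd)
    have a1 : (w : ℝ) ≤ H := by exact_mod_cast h1
    have a2 : (L : ℝ) ≤ w := by exact_mod_cast h2
    have a3 : (z : ℝ) ≤ H := by exact_mod_cast hzh
    have a4 : (L : ℝ) ≤ z := by exact_mod_cast hlz
    constructor <;> linarith
  have co : ∀ w : ℕ, (w : ℝ) ≤ Real.exp (2 * (n : ℝ) ^ (1 - δ)) → w ≤ 2 ^ n := fun w hw => by
    have h4 : 4 ≤ (n : ℝ) ^ δ := hn2 n (by omega)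
    have e : (n : ℝ) ^ δ * (n : ℝ) ^ (1 - δ) = n := by
      rw [← Real.rpow_add n0r]; simp
    have := Real.rpow_pos_of_pos n0r (1 - δ)
    have h5 : Real.exp (2 * (n : ℝ) ^ (1 - δ)) ≤ 2 ^ n := by
      rw [← Real.exp_log two_pos, ← Real.exp_nat_mul, Real.exp_log two_pos, Real.exp_le_exp]
      nlinarith [Real.log_two_gt_d9]
    exact_mod_cast hw.trans h5
  exact hw' n a b c x y z (by omega) (by omega) ha hb hc' (co a ea) (co b eb) (co c ec) cxy cxz cyz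
    (nr x hxh hlx) (nr y hyh hly) heq

/-- Theorem H in its strong form. -/
theorem thmH (ε : ℝ) (hε : 0 < ε) (A B C : ℕ) (Q : ℝ) (hA : 0 < A) (hB : 0 < B) (hC : 0 < C) :
    ∃ n0 : ℕ, ∀ n a b c x y z : ℕ, n0 ≤ n → 0 < a → 0 < b → 0 < c → 0 < x → 0 < y → 0 < z →
      (a : ℝ) ≤ Real.exp ((n : ℝ) ^ (1 - ε)) → (b : ℝ) ≤ Real.exp ((n : ℝ) ^ (1 - ε)) →
      (c : ℝ) ≤ Real.exp ((n : ℝ) ^ (1 - ε)) →
      A * (a * x ^ n) + B * (b * y ^ n) = C * (c * z ^ n) →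
      ((Nat.gcd (a * x ^ n) (b * y ^ n) : ℝ) /
        (∏ l ∈ (Nat.gcd (a * x ^ n) (b * y ^ n)).primeFactors, (l : ℝ)) ≤ Q) →
      2 ≤ max x (max y z) →
      (n : ℝ) * ((max x (max y z) : ℕ) : ℝ) ^ (1 - ε) <
        ((max x (max y z) : ℕ) : ℝ) - ((min x (min y z) : ℕ) : ℝ) := by
  set δ := min (ε / 2) (1 / 2) with hδ
  have d0 : 0 < δ := lt_min (by linarith) (by norm_num)
  have d1 : δ ≤ ε / 2 := min_le_left _ _
  have d2 : δ ≤ 1 / 2 := min_le_right _ _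
  obtain ⟨n0, h0⟩ := spread_lt δ d0 (by linarith)
  obtain ⟨n1, h1⟩ := coprime_roots A B C Q hA hB
  obtain ⟨n2, hn2⟩ := eventually_atTop.1 (((tendsto_rpow_atTop (by linarith : 0 < 1 - δ)).comp
    tendsto_natCast_atTop_atTop).eventually_ge_atTop ((A + B + C : ℕ) : ℝ))
  refine ⟨n0 + n1 + n2 + 1, fun n a b c x y z hn ha hb hc hx hy hz ea eb ec heq hQ h2 => ?_⟩
  obtain ⟨cxy, cxz, cyz⟩ := h1 n a b c x y z (by omega) ha hx heq hQ
  have n1r : (1 : ℝ) ≤ n := by exact_mod_cast (by omega : 1 ≤ n)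
  have co : ∀ U u : ℕ, U ≤ A + B + C → (u : ℝ) ≤ Real.exp ((n : ℝ) ^ (1 - ε)) →
      ((U * u : ℕ) : ℝ) ≤ Real.exp (2 * (n : ℝ) ^ (1 - δ)) := fun U u hU hu => by
    have h3 : ((A + B + C : ℕ) : ℝ) ≤ (n : ℝ) ^ (1 - δ) := hn2 n (by omega)
    have h4 : (U : ℝ) ≤ (A + B + C : ℕ) := by exact_mod_cast hU
    rw [two_mul, Real.exp_add, Nat.cast_mul]
    refine mul_le_mul ?_ (hu.trans (Real.exp_le_exp.2
      (Real.rpow_le_rpow_of_exponent_le n1r (by linarith)))) (by positivity) (by positivity)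
    linarith [Real.add_one_le_exp ((n : ℝ) ^ (1 - δ))]
  refine lt_of_le_of_lt ?_ (h0 n (A * a) (B * b) (C * c) x y z (by omega) (by positivity)
    (by positivity) (by positivity) hx hy hz (by simpa only [mul_assoc] using heq) cxy cxz cyz h2
    (co A a (by omega) ea) (co B b (by omega) eb) (co C c (by omega) ec))
  have H1 : (1 : ℝ) ≤ (max x (max y z) : ℕ) := by exact_mod_cast (by omega : 1 ≤ max x (max y z))
  gcongr
  linarith

end Pool.Agent.Lib.MP_4ffbf9_nt.SP
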